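import Pool.Agent.H20.HE.Scroll

/-! Curves with a quadratic function field: the application of the theorem on images of complete
intersections in products of projective spaces. -/

set_option autoImplicit false

namespace Pool.Agent.H20.HE

open MvPolynomial Pool.Agent.X271.TN
open Pool.Agent.Y129.TA (Tilting TiltPair DimGE DimLE IsForm IsClosedCone)
open Pool.Agent.Y129.TB (BaseField IsConeOver InTube Approximable DimLEOver CoeffsIn ThetaEq)

/-- An algebraically closed perfectoid field is a base field. -/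
theorem baseField {p : ℕ} [Fact p.Prime] {K F : Type} [Field K] [Field F] [CharP F p]
    [IsAlgClosed K] [IsAlgClosed F] (T : Tilting p K F) : BaseField T K F where
  perf := fun a => IsAlgClosed.exists_pow_nat_eq a (Fact.out : p.Prime).pos
  val := by
    obtain ⟨x, hx⟩ := T.surj (p : K)
    refine ⟨x, ?_⟩
    rw [← hx]
    exact (T.abs_sharp x).symm
  θ_mem := fun x _ => ⟨T.θ x, rfl⟩
  θ_surj := fun y hy => by
    obtain ⟨x, hx⟩ := T.θ_surj y hy
    exact ⟨x, fun n => ⟨_, rfl⟩, hx⟩

theorem approx_of_over {p n d : ℕ} {K F : Type} [Field K] [Field F] (T : TiltPair p K F)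
    {X : Set (Fin n → K)} (h : Approximable T K F X d) : T.Approximable X d := by
  intro r P D hPD hPX ε hε
  obtain ⟨Y, hY1, hY2, hY3, hY4⟩ := h r P D hPD (fun k x hx => hPX k x hx) ε hε
  exact ⟨Y, hY1, hY2, hY3, fun y hy k => hY4 y hy k⟩

theorem two_ne {p : ℕ} [Fact p.Prime] {K F : Type} [Field K] [Field F] (T : TiltPair p K F) :
    (2 : K) ≠ 0 := by
  intro h2
  rcases (Fact.out : p.Prime).eq_two_or_odd with h | h
  · apply T.p_ne
    rw [h]
    exact_mod_cast h2
  · have h3 : (p : K) = 1 := by
      have e : p = 2 * (p / 2) + 1 := by omega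
      rw [e]
      push_cast
      rw [h2, zero_mul, zero_add]
    have := T.p_lt
    rw [h3, map_one] at this
    exact lt_irrefl _ this

/-- the equations -/
noncomputable def eqs {K : Type} [Field K] (e c : ℕ) (A B G : Polynomial K) (j : Fin (e + 1)) :
    MvPolynomial (Crd (dm e)) K := if (j : ℕ) < e then scr K e j else qq e c A B G

/-- the degrees of the equations -/
def dgs (e c : ℕ) (j : Fin (e + 1)) : Fin 2 → ℕ := if (j : ℕ) < e then ![1, 1] else ![c, 2]

theorem positive_of {e c β : ℕ} (x₀ : Fin (e + 1) ⊕ Fin 1)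
    (h1 : ∀ j, x₀ = Sum.inl j → 0 < dgs e c j 0) (h2 : ∀ j, x₀ = Sum.inr j → 0 < β) :
    Positive (dm e) (dgs e c) ![β, 1] 1 := by
  classical
  refine ⟨fun x => if x = x₀ then 0 else 1, fun j => ?_, fun k => ?_, fun κ => ?_⟩
  · beta_reduce
    by_cases hj : Sum.inl j = x₀
    · rw [if_pos hj]
      exact h1 j hj.symm
    · rw [if_neg hj]
      unfold dgs
      split_ifs <;> simp
  · beta_reduce
    by_cases hj : Sum.inr k = x₀
    · rw [if_pos hj]
      exact h2 k hj.symm
    · rw [if_neg hj]
      simp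
  · have hκ : κ = 0 ∨ κ = 1 := by
      fin_cases κ
      · exact Or.inl rfl
      · exact Or.inr rfl
    rcases hκ with rfl | rfl
    · have : (Finset.univ.filter fun x : Fin (e + 1) ⊕ Fin 1 =>
          (if x = x₀ then (0 : Fin 2) else 1) = 0) ⊆ {x₀} := by
        intro x hx
        rw [Finset.mem_filter] at hx
        rw [Finset.mem_singleton]
        by_contra hne
        rw [if_neg hne] at hx
        exact one_ne_zero hx.2
      refine (Finset.card_le_card this).trans ?_
      rw [Finset.card_singleton]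
      exact le_rfl
    · have : (Finset.univ.filter fun x : Fin (e + 1) ⊕ Fin 1 =>
          (if x = x₀ then (0 : Fin 2) else 1) = 1) ⊆ Finset.univ.erase x₀ := by
        intro x hx
        rw [Finset.mem_filter] at hx
        rw [Finset.mem_erase]
        refine ⟨?_, Finset.mem_univ _⟩
        intro he
        rw [if_pos he] at hx
        exact zero_ne_one hx.2
      refine (Finset.card_le_card this).trans ?_
      rw [Finset.card_erase_of_mem (Finset.mem_univ _), Finset.card_univ, Fintype.card_sum,
        Fintype.card_fin, Fintype.card_fin]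
      exact le_rfl

theorem hv_ne {K : Type} [Field K] {c e : ℕ} {A B G : Polynomial K}
    (hA : A.natDegree ≤ c + 2 * e) (hB : B.natDegree ≤ c + e) (hG : G.natDegree ≤ c)
    (h0 : ∀ x, ¬ (A.eval x = 0 ∧ B.eval x = 0 ∧ G.eval x = 0))
    (h1 : ¬ (A.coeff (c + 2 * e) = 0 ∧ B.coeff (c + e) = 0 ∧ G.coeff c = 0)) {s t : K}
    (hst : s ≠ 0 ∨ t ≠ 0) :
    ¬ (hv (c + 2 * e) A s t = 0 ∧ hv (c + e) B s t = 0 ∧ hv c G s t = 0) := by
  rintro ⟨h2, h3, h4⟩
  by_cases hs : s = 0
  · have ht : t ≠ 0 := by
      rcases hst with h | h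
      · exact absurd hs h
      · exact h
    rw [hs, hv_zero, mul_eq_zero] at h2 h3 h4
    refine h1 ⟨?_, ?_, ?_⟩
    · exact h2.resolve_right (pow_ne_zero _ ht)
    · exact h3.resolve_right (pow_ne_zero _ ht)
    · exact h4.resolve_right (pow_ne_zero _ ht)
  · rw [hv_eq hA hs, mul_eq_zero] at h2
    rw [hv_eq hB hs, mul_eq_zero] at h3
    rw [hv_eq hG hs, mul_eq_zero] at h4
    refine h0 (t / s) ⟨?_, ?_, ?_⟩
    · exact h2.resolve_left (pow_ne_zero _ hs)
    · exact h3.resolve_left (pow_ne_zero _ hs)
    · exact h4.resolve_left (pow_ne_zero _ hs)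

/-- The degree `c`. -/
theorem exists_c {K : Type} [Field K] (e : ℕ) (A B G : Polynomial K) (hG : G ≠ 0) :
    ∃ c : ℕ, A.natDegree ≤ c + 2 * e ∧ B.natDegree ≤ c + e ∧ G.natDegree ≤ c ∧
      ¬ (A.coeff (c + 2 * e) = 0 ∧ B.coeff (c + e) = 0 ∧ G.coeff c = 0) := by
  refine ⟨max G.natDegree (max (B.natDegree - e) (A.natDegree - 2 * e)), ?_, ?_, ?_, ?_⟩
  · omega
  · omega
  · omega
  · rintro ⟨h1, h2, h3⟩
    have key : ∀ {f : Polynomial K} {N : ℕ}, f.coeff N = 0 → f.natDegree = N → f ≠ 0 → False := by
      intro f N h hN hf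
      rw [← hN] at h
      exact hf (Polynomial.leadingCoeff_eq_zero.1 h)
    set c := max G.natDegree (max (B.natDegree - e) (A.natDegree - 2 * e)) with hc
    by_cases g : G.natDegree = c
    · exact key h3 g hG
    · by_cases g2 : B.natDegree - e = c
      · have hB : B.natDegree = c + e := by omega
        refine key h2 hB ?_
        rintro rfl
        rw [Polynomial.natDegree_zero] at g2
        omega
      · have g3 : A.natDegree - 2 * e = c := by omega
        have hA : A.natDegree = c + 2 * e := by omega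
        refine key h1 hA ?_
        rintro rfl
        rw [Polynomial.natDegree_zero] at g3
        omega

theorem general (H1 : S_basis) (H2 : S_limit) {p : ℕ} [Fact p.Prime] {K F : Type} [Field K]
    [Field F] [CharP F p] [IsAlgClosed K] [IsAlgClosed F] (T : Tilting p K F) {n : ℕ}
    (a b : Fin (n + 1) → Polynomial K) (h : Polynomial K) (hh : ¬ IsSquare h)
    (hab : ∃ i j, a i * b j ≠ a j * b i) (X : Set (Fin (n + 1) → K)) (hX : IsClosedCone X)
    (hXab : ∀ x y : K, y ^ 2 = h.eval x → (fun i => (a i).eval x + y * (b i).eval x) ∈ X)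
    (hd : DimLE X 1) : T.toTiltPair.Approximable X 1 := by
  classical
  obtain ⟨α, β, a', b', r, hαβ, hα, hβ, ha, hb, hfin, hinf⟩ := H1 K (n + 1) a b hab
  obtain ⟨e, rfl⟩ := Nat.exists_eq_add_of_le hαβ
  have hdet : r 0 * r 3 - r 1 * r 2 ≠ 0 := by
    intro h0
    obtain ⟨i, j, hij⟩ := hab
    apply hij
    rw [ha i, ha j, hb i, hb j]
    linear_combination (a' i * b' j - a' j * b' i) * h0
  obtain ⟨D, A, B, G, hD, hA, hB, hG, hG0, hcop⟩ := exists_quad hh r hdet
  obtain ⟨c, hcA, hcB, hcG, hcinf⟩ := exists_c e A B G hG0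
  obtain ⟨⟨J, hJ⟩, hcone⟩ := hX
  -- the points of the curve
  obtain ⟨i₀, j₀, hij⟩ := hab
  have hmin : a i₀ * b j₀ - a j₀ * b i₀ ≠ 0 := sub_ne_zero.2 hij
  have hgood : ∀ x, x ∉ (a i₀ * b j₀ - a j₀ * b i₀).roots.toFinset → ∀ u v : K,
      A.eval x * u ^ 2 + B.eval x * u * v + G.eval x * v ^ 2 = 0 →
      (fun i => u * (a' i).eval x + v * (b' i).eval x) ∈ zeroLocus K J := by
    intro x hx u v huv
    have hx' : (a i₀ * b j₀ - a j₀ * b i₀).eval x ≠ 0 := by
      intro h0
      apply hx
      rw [Multiset.mem_toFinset, Polynomial.mem_roots hmin]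
      exact h0
    obtain ⟨y₀, hy₀⟩ := IsAlgClosed.exists_pow_nat_eq (h.eval x) (n := 2) two_pos
    obtain ⟨κ, y, hy, hl⟩ := point_of_quad ha hb hA hB hG hx' hy₀ huv
    have h1 := hcone κ _ (hXab x y hy)
    rw [hJ] at h1
    have e1 : (fun i => u * (a' i).eval x + v * (b' i).eval x) =
        κ • fun i => (a i).eval x + y * (b i).eval x := by
      funext l
      rw [hl l]
      rfl
    rw [e1]
    exact h1
  have hlim : ∀ s t u v : K, (s ≠ 0 ∨ t ≠ 0) →
      hv (c + 2 * e) A s t * u ^ 2 + hv (c + e) B s t * u * v + hv c G s t * v ^ 2 = 0 →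
      (fun i => u * hv (β + e) (a' i) s t + v * hv β (b' i) s t) ∈ zeroLocus K J := by
    have := H2 K T.absK T.ultraK ⟨(p : K), T.p_ne, T.p_lt⟩ (n + 1) J
      (fun c y hy => by rw [← hJ] at hy ⊢; exact hcone c y hy) (β + e) β c a' b' A B G
      (a i₀ * b j₀ - a j₀ * b i₀).roots.toFinset hαβ hα hβ
    simp only [Nat.add_sub_cancel_left] at this
    exact this hcA hcB hcG (fun s t hst => hv_ne hcA hcB hcG hcop hcinf hst) hgood
  have hzero : (0 : Fin (n + 1) → K) ∈ X := by
    obtain ⟨y₀, hy₀⟩ := IsAlgClosed.exists_pow_nat_eq (h.eval 0) (n := 2) two_pos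
    have h1 := hcone 0 _ (hXab 0 y₀ hy₀)
    rw [zero_smul] at h1
    exact h1
  -- the equations at a point
  have hpt : ∀ z : Crd (dm e) → K, IsPt z → (∀ j, aeval z (eqs e c A B G j) = 0) →
      ∃ u : K, (∀ k ≤ e, z (cu e k) = u * (z (cs e) ^ (e - k) * z (ct e) ^ k)) ∧
        hv (c + 2 * e) A (z (cs e)) (z (ct e)) * u ^ 2 +
          hv (c + e) B (z (cs e)) (z (ct e)) * u * z (cv e) +
          hv c G (z (cs e)) (z (ct e)) * z (cv e) ^ 2 = 0 := by
    intro z hz hz0
    obtain ⟨u, hu⟩ := scroll (pt_zero hz) (fun k hk => by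
      have h1 := hz0 ⟨k, by omega⟩
      unfold eqs at h1
      rw [if_pos hk] at h1
      exact h1)
    refine ⟨u, hu, ?_⟩
    rw [← aeval_qq A B G hu]
    have h1 := hz0 (Fin.last e)
    unfold eqs at h1
    rw [if_neg (by simp)] at h1
    exact h1
  have hsub : mimage K (eqs e c A B G) (fun i => ff e β (a' i) (b' i)) ⊆ X := by
    rintro x (hx | ⟨z, hz, hz0, hx⟩)
    · rw [hx]
      exact hzero
    · obtain ⟨u, hu, hQ⟩ := hpt z hz hz0
      have h1 := hlim _ _ u _ (pt_zero hz) hQ
      rw [hJ]
      have e1 : x = fun i => u * hv (β + e) (a' i) (z (cs e)) (z (ct e)) +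
          z (cv e) * hv β (b' i) (z (cs e)) (z (ct e)) := by
        funext i
        rw [hx i, aeval_ff _ _ hu]
      rw [e1]
      exact h1
  have hbf : BaseFree K (eqs e c A B G) (fun i => ff e β (a' i) (b' i)) := by
    intro z hz hz0
    obtain ⟨u, hu, -⟩ := hpt z hz hz0
    by_contra hno
    push Not at hno
    have hall : ∀ i, u * hv (β + e) (a' i) (z (cs e)) (z (ct e)) +
        z (cv e) * hv β (b' i) (z (cs e)) (z (ct e)) = 0 := by
      intro i
      rw [← aeval_ff _ _ hu]
      exact hno i
    have huv : u = 0 ∧ z (cv e) = 0 := by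
      by_cases hs : z (cs e) = 0
      · have ht : z (ct e) ≠ 0 := by
          rcases pt_zero hz with h | h
          · exact absurd hs h
          · exact h
        have := hinf (u * z (ct e) ^ (β + e)) (z (cv e) * z (ct e) ^ β) (fun i => by
          have h1 := hall i
          rw [hs, hv_zero, hv_zero] at h1
          linear_combination h1)
        rw [mul_eq_zero, mul_eq_zero] at this
        exact ⟨this.1.resolve_right (pow_ne_zero _ ht), this.2.resolve_right (pow_ne_zero _ ht)⟩
      · have := hfin (z (ct e) / z (cs e)) (u * z (cs e) ^ (β + e)) (z (cv e) * z (cs e) ^ β)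
          (fun i => by
            have h1 := hall i
            rw [hv_eq (hα i) hs, hv_eq (hβ i) hs] at h1
            linear_combination h1)
        rw [mul_eq_zero, mul_eq_zero] at this
        exact ⟨this.1.resolve_right (pow_ne_zero _ hs), this.2.resolve_right (pow_ne_zero _ hs)⟩
    rcases pt_one hz with h1 | ⟨k, hk, h1⟩
    · exact h1 huv.2
    · apply h1
      rw [hu k hk, huv.1, zero_mul]
  have hmh : ∀ j, MultiHom (eqs e c A B G j) (dgs e c j) := by
    intro j
    unfold eqs dgs
    split_ifs
    · exact scr_mh e j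
    · exact qq_mh e c A B G
  have hpos : Positive (dm e) (dgs e c) ![β, 1] 1 := by
    rcases Nat.eq_zero_or_pos e with he | he
    · rcases Nat.eq_zero_or_pos β with hb0 | hb0
      · rcases Nat.eq_zero_or_pos c with hc0 | hc0
        · exfalso
          subst he
          subst hc0
          have hA1 : A = Polynomial.C (A.coeff 0) :=
            Polynomial.eq_C_of_natDegree_le_zero (by simpa using hcA)
          have hB1 : B = Polynomial.C (B.coeff 0) :=
            Polynomial.eq_C_of_natDegree_le_zero (by simpa using hcB)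
          have hG1 : G = Polynomial.C (G.coeff 0) :=
            Polynomial.eq_C_of_natDegree_le_zero (by simpa using hcG)
          obtain ⟨δ, hδ⟩ := IsAlgClosed.exists_pow_nat_eq
            ((B.coeff 0) ^ 2 - 4 * (A.coeff 0 * G.coeff 0)) (n := 2) two_pos
          have h1 := disc_eq hA hB hG
          have h2 : B ^ 2 - 4 * (A * G) = Polynomial.C δ ^ 2 := by
            rw [← map_pow, hδ, hA1, hB1, hG1]
            simp only [Polynomial.coeff_C_zero, map_sub, map_mul, map_pow]
            rfl
          rw [h2] at h1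
          refine ne_zero_of_det hh (p := D * Polynomial.C δ)
            (q := 2 * (r 0 * r 3 - r 1 * r 2)) (Or.inr ?_) ?_
          · refine mul_ne_zero ?_ hdet
            intro h3
            have h4 := congrArg (Polynomial.eval (0 : K)) h3
            simp only [Polynomial.eval_ofNat, Polynomial.eval_zero] at h4
            exact two_ne T.toTiltPair h4
          · linear_combination h1
        · refine positive_of (Sum.inl (Fin.last e)) (fun j hj => ?_) (fun j hj => ?_)
          · rw [← Sum.inl.inj hj]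
            unfold dgs
            rw [if_neg (by simp)]
            exact hc0
          · cases hj
      · refine positive_of (Sum.inr 0) (fun j hj => ?_) (fun j hj => hb0)
        cases hj
    · refine positive_of (Sum.inl 0) (fun j hj => ?_) (fun j hj => ?_)
      · rw [← Sum.inl.inj hj]
        unfold dgs
        rw [if_pos (by simpa using he)]
        exact one_pos
      · cases hj
  have hdim : DimLEOver K (mimage K (eqs e c A B G) (fun i => ff e β (a' i) (b' i))) 1 := by
    obtain ⟨q, hq, hq0⟩ := hd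
    exact ⟨q, hq, fun y hy hyq => hq0 y (hsub hy) hyq⟩
  have hD1 : (![β, 1] : Fin 2 → ℕ) ≠ 0 := by
    intro h0
    have := congrFun h0 1
    simp at this
  exact approx_of_over T.toTiltPair ((main T (baseField T) hmh (fun i => ff_mh e β (a' i) (b' i))
    hD1 hbf hpos hdim).2.2 X hsub)

end Pool.Agent.H20.HE
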