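import Pool.Agent.H20.HE.StmG
import Pool.Agent.H20.HE.Asm

/-! Curves with a quadratic function field over an arbitrary perfectoid field. -/

set_option autoImplicit false

namespace Pool.Agent.H20.HE

open MvPolynomial Pool.Agent.X271.TN
open Pool.Agent.Y129.TA (Tilting TiltPair DimGE DimLE IsForm IsClosedCone)
open Pool.Agent.Y129.TB (BaseField IsConeOver InTube Approximable DimLEOver CoeffsIn ThetaEq)

/-- The primitive quadratic form, with a relation. -/
theorem exists_quadG {K : Type} [Field K] {h : Polynomial K} (hh : ¬ IsSquare h)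
    (r : Fin 4 → Polynomial K) (hdet : r 0 * r 3 - r 1 * r 2 ≠ 0) :
    ∃ D A B G x₁ x₂ x₃ : Polynomial K, D ≠ 0 ∧ D * A = r 1 ^ 2 - h * r 3 ^ 2 ∧
      D * B = 2 * h * (r 2 * r 3) - 2 * (r 0 * r 1) ∧ D * G = r 0 ^ 2 - h * r 2 ^ 2 ∧ G ≠ 0 ∧
      x₁ * A + x₂ * B + x₃ * G = 1 := by
  classical
  set A₀ := r 1 ^ 2 - h * r 3 ^ 2 with hA₀
  set B₀ := 2 * h * (r 2 * r 3) - 2 * (r 0 * r 1) with hB₀
  set G₀ := r 0 ^ 2 - h * r 2 ^ 2 with hG₀
  have hG0 : G₀ ≠ 0 := by
    refine ne_zero_of_det hh ?_
    by_contra hno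
    push Not at hno
    apply hdet
    rw [hno.1, hno.2]
    ring
  set D₁ := EuclideanDomain.gcd A₀ B₀ with hD₁
  set D := EuclideanDomain.gcd D₁ G₀ with hD
  have hDG : D ∣ G₀ := EuclideanDomain.gcd_dvd_right _ _
  have hDA : D ∣ A₀ := (EuclideanDomain.gcd_dvd_left _ _).trans (EuclideanDomain.gcd_dvd_left _ _)
  have hDB : D ∣ B₀ := (EuclideanDomain.gcd_dvd_left _ _).trans (EuclideanDomain.gcd_dvd_right _ _)
  have hD0 : D ≠ 0 := by
    intro h0
    rw [h0, zero_dvd_iff] at hDG
    exact hG0 hDG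
  obtain ⟨A, hA⟩ := hDA
  obtain ⟨B, hB⟩ := hDB
  obtain ⟨G, hG⟩ := hDG
  obtain ⟨w1, w2, b1⟩ : ∃ w1 w2, D₁ = A₀ * w1 + B₀ * w2 :=
    ⟨_, _, EuclideanDomain.gcd_eq_gcd_ab _ _⟩
  obtain ⟨w3, w4, b2⟩ : ∃ w3 w4, D = D₁ * w3 + G₀ * w4 :=
    ⟨_, _, EuclideanDomain.gcd_eq_gcd_ab _ _⟩
  refine ⟨D, A, B, G, w1 * w3, w2 * w3, w4, hD0, hA.symm, hB.symm, hG.symm, ?_, ?_⟩
  · rintro rfl
    rw [mul_zero] at hG
    exact hG0 hG
  · apply mul_left_cancel₀ hD0
    linear_combination (-(w1 * w3)) * hA - (w2 * w3) * hB - w4 * hG - b2 - w3 * b1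

section

variable {K C : Type} [Field K] [Field C] [Algebra K C]

theorem map_ff (e β : ℕ) (a b : Polynomial K) :
    MvPolynomial.map (algebraMap K C) (ff e β a b) =
      ff e β (a.map (algebraMap K C)) (b.map (algebraMap K C)) := by
  unfold ff
  simp only [map_add, map_sum, map_mul, map_pow, MvPolynomial.map_X, MvPolynomial.map_C,
    Polynomial.coeff_map]

theorem map_scr (e k : ℕ) : MvPolynomial.map (algebraMap K C) (scr K e k) = scr C e k := by
  unfold scr
  simp only [map_sub, map_mul, MvPolynomial.map_X]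

theorem map_qq (e c : ℕ) (A B G : Polynomial K) :
    MvPolynomial.map (algebraMap K C) (qq e c A B G) =
      qq e c (A.map (algebraMap K C)) (B.map (algebraMap K C)) (G.map (algebraMap K C)) := by
  unfold qq
  simp only [map_add, map_sum, map_mul, map_pow, MvPolynomial.map_X, MvPolynomial.map_C,
    Polynomial.coeff_map]

theorem aeval_ffG (e β : ℕ) (a b : Polynomial K) (z : Crd (dm e) → C) :
    aeval z (ff e β a b) = aeval z (ff e β (a.map (algebraMap K C)) (b.map (algebraMap K C))) := by
  rw [← map_ff, aeval_map_algebraMap]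

theorem aeval_eqsG (e c : ℕ) (A B G : Polynomial K) (j : Fin (e + 1)) (z : Crd (dm e) → C) :
    aeval z (eqs e c A B G j) = aeval z (eqs e c (A.map (algebraMap K C))
      (B.map (algebraMap K C)) (G.map (algebraMap K C)) j) := by
  unfold eqs
  split_ifs
  · rw [← map_scr (K := K) (C := C), aeval_map_algebraMap]
  · rw [← map_qq, aeval_map_algebraMap]

end

/-- The equations at a point. -/
theorem pt_eqs {C : Type} [Field C] {e c : ℕ} {A B G : Polynomial C} {z : Crd (dm e) → C}
    (hz : IsPt z) (hz0 : ∀ j, aeval z (eqs e c A B G j) = 0) :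
    ∃ u : C, (∀ k ≤ e, z (cu e k) = u * (z (cs e) ^ (e - k) * z (ct e) ^ k)) ∧
      hv (c + 2 * e) A (z (cs e)) (z (ct e)) * u ^ 2 +
        hv (c + e) B (z (cs e)) (z (ct e)) * u * z (cv e) +
        hv c G (z (cs e)) (z (ct e)) * z (cv e) ^ 2 = 0 := by
  obtain ⟨u, hu⟩ := scroll (pt_zero hz) (fun k hk => by
    have h1 := hz0 ⟨k, by omega⟩
    unfold eqs at h1
    rw [if_pos hk] at h1
    exact h1)
  refine ⟨u, hu, ?_⟩
  rw [← aeval_qq A B G hu]
  have h1 := hz0 (Fin.last e)
  unfold eqs at h1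
  rw [if_neg (by simp)] at h1
  exact h1

/-- The maps have no common zero. -/
theorem not_all_zero {C : Type} [Field C] {n e β c : ℕ} {A B G : Polynomial C}
    {a b : Fin n → Polynomial C} (ha : ∀ i, (a i).natDegree ≤ β + e)
    (hb : ∀ i, (b i).natDegree ≤ β)
    (hfin : ∀ x l m : C, (∀ i, l * (a i).eval x + m * (b i).eval x = 0) → l = 0 ∧ m = 0)
    (hinf : ∀ l m : C, (∀ i, l * (a i).coeff (β + e) + m * (b i).coeff β = 0) → l = 0 ∧ m = 0)
    {z : Crd (dm e) → C} (hz : IsPt z) (hz0 : ∀ j, aeval z (eqs e c A B G j) = 0) :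
    ∃ i, aeval z (ff e β (a i) (b i)) ≠ 0 := by
  obtain ⟨u, hu, -⟩ := pt_eqs hz hz0
  by_contra hno
  push Not at hno
  have hall : ∀ i, u * hv (β + e) (a i) (z (cs e)) (z (ct e)) +
      z (cv e) * hv β (b i) (z (cs e)) (z (ct e)) = 0 := by
    intro i
    rw [← aeval_ff _ _ hu]
    exact hno i
  have huv : u = 0 ∧ z (cv e) = 0 := by
    by_cases hs : z (cs e) = 0
    · have ht : z (ct e) ≠ 0 := by
        rcases pt_zero hz with h | h
        · exact absurd hs h
        · exact h
      have := hinf (u * z (ct e) ^ (β + e)) (z (cv e) * z (ct e) ^ β) (fun i => by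
        have h1 := hall i
        rw [hs, hv_zero, hv_zero] at h1
        linear_combination h1)
      rw [mul_eq_zero, mul_eq_zero] at this
      exact ⟨this.1.resolve_right (pow_ne_zero _ ht), this.2.resolve_right (pow_ne_zero _ ht)⟩
    · have := hfin (z (ct e) / z (cs e)) (u * z (cs e) ^ (β + e)) (z (cv e) * z (cs e) ^ β)
        (fun i => by
          have h1 := hall i
          rw [hv_eq (ha i) hs, hv_eq (hb i) hs] at h1
          linear_combination h1)
      rw [mul_eq_zero, mul_eq_zero] at this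
      exact ⟨this.1.resolve_right (pow_ne_zero _ hs), this.2.resolve_right (pow_ne_zero _ hs)⟩
  rcases pt_one hz with h1 | ⟨k, hk, h1⟩
  · exact h1 huv.2
  · apply h1
    rw [hu k hk, huv.1, zero_mul]

/-- The discriminant is not constant. -/
theorem exists_pos {C : Type} [Field C] [IsAlgClosed C] (h2 : (2 : C) ≠ 0) {h : Polynomial C}
    (hh : ¬ IsSquare h) {r : Fin 4 → Polynomial C} (hdet : r 0 * r 3 - r 1 * r 2 ≠ 0)
    {D A B G : Polynomial C} (hA : D * A = r 1 ^ 2 - h * r 3 ^ 2)
    (hB : D * B = 2 * h * (r 2 * r 3) - 2 * (r 0 * r 1)) (hG : D * G = r 0 ^ 2 - h * r 2 ^ 2)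
    (hA1 : A.natDegree ≤ 0) (hB1 : B.natDegree ≤ 0) (hG1 : G.natDegree ≤ 0) : False := by
  have hA1 := Polynomial.eq_C_of_natDegree_le_zero hA1
  have hB1 := Polynomial.eq_C_of_natDegree_le_zero hB1
  have hG1 := Polynomial.eq_C_of_natDegree_le_zero hG1
  obtain ⟨δ, hδ⟩ := IsAlgClosed.exists_pow_nat_eq
    ((B.coeff 0) ^ 2 - 4 * (A.coeff 0 * G.coeff 0)) (n := 2) two_pos
  have h1 := disc_eq hA hB hG
  have h3 : B ^ 2 - 4 * (A * G) = Polynomial.C δ ^ 2 := by
    rw [← map_pow, hδ, hA1, hB1, hG1]
    simp only [Polynomial.coeff_C_zero, map_sub, map_mul, map_pow]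
    rfl
  rw [h3] at h1
  refine ne_zero_of_det hh (p := D * Polynomial.C δ)
    (q := 2 * (r 0 * r 3 - r 1 * r 2)) (Or.inr ?_) ?_
  · refine mul_ne_zero ?_ hdet
    intro h3
    have h4 := congrArg (Polynomial.eval (0 : C)) h3
    simp only [Polynomial.eval_ofNat, Polynomial.eval_zero] at h4
    exact h2 h4
  · linear_combination h1

theorem zeroLocus_map {K C : Type} [Field K] [Field C] [Algebra K C] {n : ℕ}
    (J : Ideal (MvPolynomial (Fin n) K)) :
    zeroLocus C (J.map (MvPolynomial.map (algebraMap K C))) = zeroLocus C J := by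
  ext x
  rw [mem_zeroLocus_iff, mem_zeroLocus_iff]
  constructor
  · intro h q hq
    have := h _ (Ideal.mem_map_of_mem (MvPolynomial.map (algebraMap K C)) hq)
    rwa [aeval_map_algebraMap] at this
  · intro h q hq
    have h1 : J.map (MvPolynomial.map (algebraMap K C)) ≤
        RingHom.ker ((aeval x : MvPolynomial (Fin n) C →ₐ[C] C) : MvPolynomial (Fin n) C →+* C) := by
      rw [Ideal.map_le_iff_le_comap]
      intro q hq
      rw [Ideal.mem_comap, RingHom.mem_ker]
      change aeval x (MvPolynomial.map (algebraMap K C) q) = 0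
      rw [aeval_map_algebraMap]
      exact h q hq
    have h2 := h1 hq
    rw [RingHom.mem_ker] at h2
    exact h2

/-- The main theorem, from the two pieces. -/
theorem generalG (H1 : S_basisG) (H2 : S_limit) {p : ℕ} [Fact p.Prime] {C F K E : Type} [Field C]
    [Field F] [CharP F p] [Field K] [Field E] [Algebra K C] [Algebra E F] [IsAlgClosed C]
    [IsAlgClosed F] (T : Tilting p C F) (BF : BaseField T K E) {n : ℕ}
    (a b : Fin (n + 1) → Polynomial K) (h : Polynomial K)
    (hh : ¬ IsSquare (h.map (algebraMap K C))) (hab : ∃ i j, a i * b j ≠ a j * b i)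
    (X : Set (Fin (n + 1) → C)) (hX : IsConeOver K X)
    (hXab : ∀ x y : C, y ^ 2 = Polynomial.aeval x h →
      (fun i => Polynomial.aeval x (a i) + y * Polynomial.aeval x (b i)) ∈ X)
    (hd : DimLEOver K X 1) : Approximable T.toTiltPair K E X 1 := by
  classical
  obtain ⟨α, β, D₀, a', b', r, hαβ, hD₀, hα, hβ, ha, hb, hfin, hinf⟩ := H1 K C (n + 1) a b hab
  obtain ⟨e, rfl⟩ := Nat.exists_eq_add_of_le hαβ
  have hinj : Function.Injective (algebraMap K C) := (algebraMap K C).injective
  have hdet : r 0 * r 3 - r 1 * r 2 ≠ 0 := by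
    intro h0
    obtain ⟨i, j, hij⟩ := hab
    apply hij
    apply mul_left_cancel₀ (mul_ne_zero hD₀ hD₀)
    calc D₀ * D₀ * (a i * b j) = (D₀ * a i) * (D₀ * b j) := by ring
      _ = (D₀ * a j) * (D₀ * b i) := by
        rw [ha i, ha j, hb i, hb j]
        linear_combination (a' i * b' j - a' j * b' i) * h0
      _ = D₀ * D₀ * (a j * b i) := by ring
  have hhK : ¬ IsSquare h := by
    rintro ⟨w, hw⟩
    exact hh ⟨w.map (algebraMap K C), by rw [hw, Polynomial.map_mul]⟩
  obtain ⟨D, A, B, G, x₁, x₂, x₃, hD, hA, hB, hG, hG0, hbez⟩ := exists_quadG hhK r hdet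
  obtain ⟨c, hcA, hcB, hcG, hcinf⟩ := exists_c e A B G hG0
  obtain ⟨⟨J, hJ⟩, hcone⟩ := hX
  -- the data over `C`
  have hA' := congrArg (Polynomial.map (algebraMap K C)) hA
  have hB' := congrArg (Polynomial.map (algebraMap K C)) hB
  have hG' := congrArg (Polynomial.map (algebraMap K C)) hG
  have hbez' := congrArg (Polynomial.map (algebraMap K C)) hbez
  simp only [Polynomial.map_mul, Polynomial.map_sub, Polynomial.map_add, Polynomial.map_pow,
    Polynomial.map_ofNat, Polynomial.map_one] at hA' hB' hG' hbez'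
  have haC : ∀ i, (D₀ * a i).map (algebraMap K C) = (r 0).map (algebraMap K C) *
      (a' i).map (algebraMap K C) + (r 1).map (algebraMap K C) * (b' i).map (algebraMap K C) := by
    intro i
    rw [ha i, Polynomial.map_add, Polynomial.map_mul, Polynomial.map_mul]
  have hbC : ∀ i, (D₀ * b i).map (algebraMap K C) = (r 2).map (algebraMap K C) *
      (a' i).map (algebraMap K C) + (r 3).map (algebraMap K C) * (b' i).map (algebraMap K C) := by
    intro i
    rw [hb i, Polynomial.map_add, Polynomial.map_mul, Polynomial.map_mul]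
  have hdetC : (r 0).map (algebraMap K C) * (r 3).map (algebraMap K C) -
      (r 1).map (algebraMap K C) * (r 2).map (algebraMap K C) ≠ 0 := by
    intro h0
    apply hdet
    apply Polynomial.map_injective _ hinj
    rw [Polynomial.map_sub, Polynomial.map_mul, Polynomial.map_mul, Polynomial.map_zero]
    exact h0
  have hcopC : ∀ x : C, ¬ ((A.map (algebraMap K C)).eval x = 0 ∧
      (B.map (algebraMap K C)).eval x = 0 ∧ (G.map (algebraMap K C)).eval x = 0) := by
    rintro x ⟨h1, h2, h3⟩
    have h4 := congrArg (Polynomial.eval x) hbez'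
    rw [Polynomial.eval_add, Polynomial.eval_add, Polynomial.eval_mul, Polynomial.eval_mul,
      Polynomial.eval_mul, h1, h2, h3, Polynomial.eval_one] at h4
    simp at h4
  have hinfC : ¬ ((A.map (algebraMap K C)).coeff (c + 2 * e) = 0 ∧
      (B.map (algebraMap K C)).coeff (c + e) = 0 ∧ (G.map (algebraMap K C)).coeff c = 0) := by
    rintro ⟨h1, h2, h3⟩
    rw [Polynomial.coeff_map, map_eq_zero] at h1 h2 h3
    exact hcinf ⟨h1, h2, h3⟩
  have dA : (A.map (algebraMap K C)).natDegree ≤ c + 2 * e := Polynomial.natDegree_map_le.trans hcA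
  have dB : (B.map (algebraMap K C)).natDegree ≤ c + e := Polynomial.natDegree_map_le.trans hcB
  have dG : (G.map (algebraMap K C)).natDegree ≤ c := Polynomial.natDegree_map_le.trans hcG
  have da : ∀ i, ((a' i).map (algebraMap K C)).natDegree ≤ β + e := fun i =>
    Polynomial.natDegree_map_le.trans (hα i)
  have db : ∀ i, ((b' i).map (algebraMap K C)).natDegree ≤ β := fun i =>
    Polynomial.natDegree_map_le.trans (hβ i)
  have hfinC : ∀ x l m : C, (∀ i, l * ((a' i).map (algebraMap K C)).eval x +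
      m * ((b' i).map (algebraMap K C)).eval x = 0) → l = 0 ∧ m = 0 := by
    intro x l m h0
    refine hfin x l m fun i => ?_
    rw [← Polynomial.eval_map_algebraMap, ← Polynomial.eval_map_algebraMap]
    exact h0 i
  have hinfC' : ∀ l m : C, (∀ i, l * ((a' i).map (algebraMap K C)).coeff (β + e) +
      m * ((b' i).map (algebraMap K C)).coeff β = 0) → l = 0 ∧ m = 0 := by
    intro l m h0
    refine hinf l m fun i => ?_
    rw [← Polynomial.coeff_map, ← Polynomial.coeff_map]
    exact h0 i
  -- the points of the curve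
  obtain ⟨i₀, j₀, hij⟩ := hab
  have hmin : D₀ * (D₀ * (a i₀ * b j₀ - a j₀ * b i₀)) ≠ 0 :=
    mul_ne_zero hD₀ (mul_ne_zero hD₀ (sub_ne_zero.2 hij))
  have hminC : (D₀ * (D₀ * (a i₀ * b j₀ - a j₀ * b i₀))).map (algebraMap K C) ≠ 0 := by
    intro h0
    exact hmin (Polynomial.map_injective _ hinj (by rw [h0, Polynomial.map_zero]))
  have hgood : ∀ x : C, x ∉ ((D₀ * (D₀ * (a i₀ * b j₀ - a j₀ * b i₀))).map
      (algebraMap K C)).roots.toFinset → ∀ u v : C,
      (A.map (algebraMap K C)).eval x * u ^ 2 + (B.map (algebraMap K C)).eval x * u * v +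
        (G.map (algebraMap K C)).eval x * v ^ 2 = 0 →
      (fun i => u * ((a' i).map (algebraMap K C)).eval x +
        v * ((b' i).map (algebraMap K C)).eval x) ∈
          zeroLocus C (J.map (MvPolynomial.map (algebraMap K C))) := by
    intro x hx u v huv
    have hx' : ((D₀ * (D₀ * (a i₀ * b j₀ - a j₀ * b i₀))).map (algebraMap K C)).eval x ≠ 0 := by
      intro h0
      apply hx
      rw [Multiset.mem_toFinset, Polynomial.mem_roots hminC]
      exact h0
    have hx'' : ((D₀ * a i₀).map (algebraMap K C) * (D₀ * b j₀).map (algebraMap K C) -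
        (D₀ * a j₀).map (algebraMap K C) * (D₀ * b i₀).map (algebraMap K C)).eval x ≠ 0 := by
      have e1 : (D₀ * a i₀).map (algebraMap K C) * (D₀ * b j₀).map (algebraMap K C) -
        (D₀ * a j₀).map (algebraMap K C) * (D₀ * b i₀).map (algebraMap K C) =
          (D₀ * (D₀ * (a i₀ * b j₀ - a j₀ * b i₀))).map (algebraMap K C) := by
        simp only [Polynomial.map_mul, Polynomial.map_sub]
        ring
      rw [e1]
      exact hx'
    obtain ⟨y₀, hy₀⟩ := IsAlgClosed.exists_pow_nat_eq ((h.map (algebraMap K C)).eval x) (n := 2)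
      two_pos
    obtain ⟨κ, y, hy, hl⟩ := point_of_quad (r := fun i => (r i).map (algebraMap K C))
      (a := fun i => (D₀ * a i).map (algebraMap K C)) (b := fun i => (D₀ * b i).map (algebraMap K C))
      haC hbC hA' hB' hG' hx'' hy₀ huv
    have h1 := hcone (κ * (D₀.map (algebraMap K C)).eval x) _ (hXab x y (by
      rw [hy, Polynomial.eval_map_algebraMap]))
    rw [hJ] at h1
    rw [zeroLocus_map]
    have e1 : (fun i => u * ((a' i).map (algebraMap K C)).eval x +
        v * ((b' i).map (algebraMap K C)).eval x) =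
        (κ * (D₀.map (algebraMap K C)).eval x) •
          fun i => Polynomial.aeval x (a i) + y * Polynomial.aeval x (b i) := by
      funext l
      rw [hl l]
      simp only [Polynomial.map_mul, Polynomial.eval_mul, Pi.smul_apply, smul_eq_mul,
        Polynomial.eval_map_algebraMap]
      ring
    rw [e1]
    exact h1
  have hlim : ∀ s t u v : C, (s ≠ 0 ∨ t ≠ 0) →
      hv (c + 2 * e) (A.map (algebraMap K C)) s t * u ^ 2 +
        hv (c + e) (B.map (algebraMap K C)) s t * u * v +
        hv c (G.map (algebraMap K C)) s t * v ^ 2 = 0 →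
      (fun i => u * hv (β + e) ((a' i).map (algebraMap K C)) s t +
        v * hv β ((b' i).map (algebraMap K C)) s t) ∈ zeroLocus C J := by
    have := H2 C T.absK T.ultraK ⟨(p : C), T.p_ne, T.p_lt⟩ (n + 1)
      (J.map (MvPolynomial.map (algebraMap K C)))
      (fun c y hy => by
        rw [zeroLocus_map, ← hJ] at hy ⊢
        exact hcone c y hy) (β + e) β c (fun i => (a' i).map (algebraMap K C))
      (fun i => (b' i).map (algebraMap K C)) (A.map (algebraMap K C)) (B.map (algebraMap K C))
      (G.map (algebraMap K C))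
      ((D₀ * (D₀ * (a i₀ * b j₀ - a j₀ * b i₀))).map (algebraMap K C)).roots.toFinset hαβ da db
    simp only [Nat.add_sub_cancel_left] at this
    rw [zeroLocus_map] at this
    refine this dA dB dG (fun s t hst => hv_ne dA dB dG hcopC hinfC hst) ?_
    intro x hx u v huv
    have := hgood x hx u v huv
    rwa [zeroLocus_map] at this
  have hzero : (0 : Fin (n + 1) → C) ∈ X := by
    obtain ⟨y₀, hy₀⟩ := IsAlgClosed.exists_pow_nat_eq (Polynomial.aeval (0 : C) h) (n := 2) two_pos
    have h1 := hcone 0 _ (hXab 0 y₀ hy₀)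
    rw [zero_smul] at h1
    exact h1
  have hsub : mimage C (eqs e c A B G) (fun i => ff e β (a' i) (b' i)) ⊆ X := by
    rintro x (hx | ⟨z, hz, hz0, hx⟩)
    · rw [hx]
      exact hzero
    · obtain ⟨u, hu, hQ⟩ := pt_eqs (A := A.map (algebraMap K C)) (B := B.map (algebraMap K C))
        (G := G.map (algebraMap K C)) (c := c) hz (fun j => by
        rw [← aeval_eqsG]
        exact hz0 j)
      have h1 := hlim _ _ u _ (pt_zero hz) hQ
      rw [hJ]
      have e1 : x = fun i => u * hv (β + e) ((a' i).map (algebraMap K C)) (z (cs e)) (z (ct e)) +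
          z (cv e) * hv β ((b' i).map (algebraMap K C)) (z (cs e)) (z (ct e)) := by
        funext i
        rw [hx i, aeval_ffG, aeval_ff _ _ hu]
      rw [e1]
      exact h1
  have hbf : BaseFree C (eqs e c A B G) (fun i => ff e β (a' i) (b' i)) := by
    intro z hz hz0
    obtain ⟨i, hi⟩ := not_all_zero (A := A.map (algebraMap K C)) (B := B.map (algebraMap K C))
      (G := G.map (algebraMap K C)) (c := c) da db hfinC hinfC' hz (fun j => by
      rw [← aeval_eqsG]
      exact hz0 j)
    refine ⟨i, ?_⟩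
    rw [aeval_ffG]
    exact hi
  have hmh : ∀ j, MultiHom (eqs e c A B G j) (dgs e c j) := by
    intro j
    unfold eqs dgs
    split_ifs
    · exact scr_mh e j
    · exact qq_mh e c A B G
  have hpos : Positive (dm e) (dgs e c) ![β, 1] 1 := by
    rcases Nat.eq_zero_or_pos e with he | he
    · rcases Nat.eq_zero_or_pos β with hb0 | hb0
      · rcases Nat.eq_zero_or_pos c with hc0 | hc0
        · exfalso
          subst he
          subst hc0
          exact exists_pos (r := fun i => (r i).map (algebraMap K C)) (two_ne T.toTiltPair) hh hdetC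
            hA' hB' hG' (by simpa using dA) (by simpa using dB) (by simpa using dG)
        · refine positive_of (Sum.inl (Fin.last e)) (fun j hj => ?_) (fun j hj => ?_)
          · rw [← Sum.inl.inj hj]
            unfold dgs
            rw [if_neg (by simp)]
            exact hc0
          · cases hj
      · refine positive_of (Sum.inr 0) (fun j hj => ?_) (fun j hj => hb0)
        cases hj
    · refine positive_of (Sum.inl 0) (fun j hj => ?_) (fun j hj => ?_)
      · rw [← Sum.inl.inj hj]
        unfold dgs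
        rw [if_pos (by simpa using he)]
        exact one_pos
      · cases hj
  have hdim : DimLEOver K (mimage C (eqs e c A B G) (fun i => ff e β (a' i) (b' i))) 1 := by
    obtain ⟨q, hq, hq0⟩ := hd
    exact ⟨q, hq, fun y hy hyq => hq0 y (hsub hy) hyq⟩
  have hD1 : (![β, 1] : Fin 2 → ℕ) ≠ 0 := by
    intro h0
    have := congrFun h0 1
    simp at this
  exact (main T BF hmh (fun i => ff_mh e β (a' i) (b' i)) hD1 hbf hpos hdim).2.2 X hsub

end Pool.Agent.H20.HE
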