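import Pool.Agent.H20.HE.StmM
import Pool.Agent.H20.HE.AsmG

/-! Curves on rational scrolls over an arbitrary perfectoid field. -/

set_option autoImplicit false

namespace Pool.Agent.H20.HE

open MvPolynomial Pool.Agent.X271.TN
open Pool.Agent.Y129.TA (Tilting TiltPair DimGE DimLE IsForm IsClosedCone)
open Pool.Agent.Y129.TB (BaseField IsConeOver InTube Approximable DimLEOver CoeffsIn ThetaEq)

/-- the monomial of bidegree `(c, r)` with value `u ^ r s ^ (c + r e - j) t ^ j` -/
noncomputable def mono (K : Type) [Field K] (e c : ℕ) : ℕ → ℕ → MvPolynomial (Crd (dm e)) K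
  | 0, j => X (cs e) ^ (c - j) * X (ct e) ^ j
  | r + 1, j => X (cu e (min j e)) * mono K e c r (j - min j e)

theorem mono_wh {K : Type} [Field K] (e c : ℕ) : ∀ r j : ℕ, j ≤ c + r * e →
    IsWeightedHomogeneous (Pool.Agent.W476.TP.wt (dm e)) (mono K e c r j) ![c, r] := by
  intro r
  induction r with
  | zero =>
    intro j hj
    refine wh_cast ((wh_s e _).mul (wh_t e _)) ?_ ?_
    · simp at hj ⊢
      omega
    · simp
  | succ r ih =>
    intro j hj
    have h1 : j - min j e ≤ c + r * e := by
      rw [Nat.succ_mul] at hj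
      omega
    refine wh_cast ((wh_u e _).mul (ih _ h1)) ?_ ?_
    · simp
    · simp
      omega

theorem aeval_mono {K : Type} [Field K] {e c : ℕ} {z : Crd (dm e) → K} {u : K}
    (hz : ∀ k ≤ e, z (cu e k) = u * (z (cs e) ^ (e - k) * z (ct e) ^ k)) : ∀ r j : ℕ,
    j ≤ c + r * e → aeval z (mono K e c r j) =
      u ^ r * (z (cs e) ^ (c + r * e - j) * z (ct e) ^ j) := by
  intro r
  induction r with
  | zero =>
    intro j hj
    unfold mono
    simp only [map_mul, map_pow, aeval_X, pow_zero, one_mul, Nat.zero_mul, Nat.add_zero]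
  | succ r ih =>
    intro j hj
    rw [Nat.succ_mul] at hj
    have h1 : j - min j e ≤ c + r * e := by omega
    unfold mono
    rw [map_mul, aeval_X, ih _ h1, hz _ (min_le_right _ _)]
    generalize hk : min j e = k
    generalize hm : j - k = l
    have e1 : c + (r + 1) * e - j = (c + r * e - l) + (e - k) := by
      rw [Nat.succ_mul]
      omega
    have e2 : j = l + k := by omega
    have e3 : z (ct e) ^ j = z (ct e) ^ l * z (ct e) ^ k := by rw [← pow_add, ← e2]
    rw [e1, pow_add, e3]
    ring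

/-- the equation of degree `m` -/
noncomputable def qm {K : Type} [Field K] (e c m : ℕ) (q : ℕ → Polynomial K) :
    MvPolynomial (Crd (dm e)) K :=
  ∑ k ∈ Finset.range (m + 1), ∑ j ∈ Finset.range (c + k * e + 1),
    C ((q k).coeff j) * (mono K e c k j * X (cv e) ^ (m - k))

theorem qm_mh {K : Type} [Field K] (e c m : ℕ) (q : ℕ → Polynomial K) :
    MultiHom (qm e c m q) ![c, m] := by
  refine multi_of_wh ?_
  unfold qm
  refine wh_sum fun k hk => wh_sum fun j hj => ?_
  have hk' := Finset.mem_range.1 hk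
  have hj' := Finset.mem_range.1 hj
  refine wh_cast ((wh_c e _).mul ((mono_wh e c k j (by omega)).mul ((wh_v e).pow (m - k)))) ?_ ?_
  · simp
  · simp
    omega

theorem aeval_qm {K : Type} [Field K] {e c m : ℕ} (q : ℕ → Polynomial K) {z : Crd (dm e) → K} {u : K}
    (hz : ∀ k ≤ e, z (cu e k) = u * (z (cs e) ^ (e - k) * z (ct e) ^ k)) :
    aeval z (qm e c m q) = ∑ k ∈ Finset.range (m + 1),
      hv (c + k * e) (q k) (z (cs e)) (z (ct e)) * u ^ k * z (cv e) ^ (m - k) := by
  unfold qm hv
  rw [map_sum]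
  refine Finset.sum_congr rfl fun k hk => ?_
  rw [map_sum, Finset.sum_mul, Finset.sum_mul]
  refine Finset.sum_congr rfl fun j hj => ?_
  have hj' := Finset.mem_range.1 hj
  rw [map_mul, map_mul, map_pow, aeval_X, aeval_C, aeval_mono hz k j (by omega)]
  simp only [Algebra.algebraMap_self, RingHom.id_apply]
  ring

/-- the equations -/
noncomputable def eqm {K : Type} [Field K] (e c m : ℕ) (q : ℕ → Polynomial K) (j : Fin (e + 1)) :
    MvPolynomial (Crd (dm e)) K := if (j : ℕ) < e then scr K e j else qm e c m q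

/-- the degrees of the equations -/
def dgm (e c m : ℕ) (j : Fin (e + 1)) : Fin 2 → ℕ := if (j : ℕ) < e then ![1, 1] else ![c, m]

theorem positive_ofM {e c m β : ℕ} (hm : 0 < m) (x₀ : Fin (e + 1) ⊕ Fin 1)
    (h1 : ∀ j, x₀ = Sum.inl j → 0 < dgm e c m j 0) (h2 : ∀ j, x₀ = Sum.inr j → 0 < β) :
    Positive (dm e) (dgm e c m) ![β, 1] 1 := by
  classical
  refine ⟨fun x => if x = x₀ then 0 else 1, fun j => ?_, fun k => ?_, fun κ => ?_⟩
  · beta_reduce
    by_cases hj : Sum.inl j = x₀
    · rw [if_pos hj]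
      exact h1 j hj.symm
    · rw [if_neg hj]
      unfold dgm
      split_ifs
      · simp
      · simpa using hm
  · beta_reduce
    by_cases hj : Sum.inr k = x₀
    · rw [if_pos hj]
      exact h2 k hj.symm
    · rw [if_neg hj]
      simp
  · have hκ : κ = 0 ∨ κ = 1 := by
      fin_cases κ
      · exact Or.inl rfl
      · exact Or.inr rfl
    rcases hκ with rfl | rfl
    · have : (Finset.univ.filter fun x : Fin (e + 1) ⊕ Fin 1 =>
          (if x = x₀ then (0 : Fin 2) else 1) = 0) ⊆ {x₀} := by
        intro x hx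
        rw [Finset.mem_filter] at hx
        rw [Finset.mem_singleton]
        by_contra hne
        rw [if_neg hne] at hx
        exact one_ne_zero hx.2
      refine (Finset.card_le_card this).trans ?_
      rw [Finset.card_singleton]
      exact le_rfl
    · have : (Finset.univ.filter fun x : Fin (e + 1) ⊕ Fin 1 =>
          (if x = x₀ then (0 : Fin 2) else 1) = 1) ⊆ Finset.univ.erase x₀ := by
        intro x hx
        rw [Finset.mem_filter] at hx
        rw [Finset.mem_erase]
        refine ⟨?_, Finset.mem_univ _⟩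
        intro he
        rw [if_pos he] at hx
        exact zero_ne_one hx.2
      refine (Finset.card_le_card this).trans ?_
      rw [Finset.card_erase_of_mem (Finset.mem_univ _), Finset.card_univ, Fintype.card_sum,
        Fintype.card_fin, Fintype.card_fin]
      exact le_rfl

theorem hv_neM {K : Type} [Field K] {c e m : ℕ} {q : ℕ → Polynomial K}
    (hq : ∀ k ≤ m, (q k).natDegree ≤ c + k * e)
    (h0 : ∀ x, ∃ k ≤ m, (q k).eval x ≠ 0)
    (h1 : ∃ k ≤ m, (q k).coeff (c + k * e) ≠ 0) {s t : K} (hst : s ≠ 0 ∨ t ≠ 0) :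
    ∃ k ≤ m, hv (c + k * e) (q k) s t ≠ 0 := by
  by_cases hs : s = 0
  · have ht : t ≠ 0 := by
      rcases hst with h | h
      · exact absurd hs h
      · exact h
    obtain ⟨k, hk, hk1⟩ := h1
    refine ⟨k, hk, ?_⟩
    rw [hs, hv_zero]
    exact mul_ne_zero hk1 (pow_ne_zero _ ht)
  · obtain ⟨k, hk, hk1⟩ := h0 (t / s)
    refine ⟨k, hk, ?_⟩
    rw [hv_eq (hq k hk) hs]
    exact mul_ne_zero (pow_ne_zero _ hs) hk1

/-- The degree `c`. -/
theorem exists_cM {K : Type} [Field K] (e m : ℕ) (q : ℕ → Polynomial K) (hq : q 0 ≠ 0) :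
    ∃ c : ℕ, (∀ k ≤ m, (q k).natDegree ≤ c + k * e) ∧ ∃ k ≤ m, (q k).coeff (c + k * e) ≠ 0 := by
  classical
  obtain ⟨k₀, hk₀, hmax⟩ := Finset.exists_max_image (Finset.range (m + 1))
    (fun k => (q k).natDegree - k * e) ⟨0, Finset.mem_range.2 (by omega)⟩
  have hk₀' := Finset.mem_range.1 hk₀
  have hle : ∀ k ≤ m, (q k).natDegree ≤ ((q k₀).natDegree - k₀ * e) + k * e := by
    intro k hk
    have := hmax k (Finset.mem_range.2 (by omega))
    omega
  refine ⟨(q k₀).natDegree - k₀ * e, hle, ?_⟩
  by_cases h0 : (q k₀).natDegree - k₀ * e = 0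
  · refine ⟨0, Nat.zero_le _, ?_⟩
    have h1 := hle 0 (Nat.zero_le _)
    rw [h0, Nat.zero_mul, Nat.add_zero] at h1 ⊢
    have h2 : (q 0).natDegree = 0 := Nat.le_zero.1 h1
    have h3 := Polynomial.leadingCoeff_ne_zero.2 hq
    rw [Polynomial.leadingCoeff, h2] at h3
    exact h3
  · refine ⟨k₀, by omega, ?_⟩
    have h1 : (q k₀).natDegree - k₀ * e + k₀ * e = (q k₀).natDegree := by omega
    rw [h1]
    apply Polynomial.leadingCoeff_ne_zero.2
    intro h2
    rw [h2, Polynomial.natDegree_zero] at h0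
    omega

theorem map_mono {K C : Type} [Field K] [Field C] [Algebra K C] (e c : ℕ) : ∀ r j : ℕ,
    MvPolynomial.map (algebraMap K C) (mono K e c r j) = mono C e c r j := by
  intro r
  induction r with
  | zero =>
    intro j
    unfold mono
    simp only [map_mul, map_pow, MvPolynomial.map_X]
  | succ r ih =>
    intro j
    unfold mono
    rw [map_mul, MvPolynomial.map_X, ih]

theorem aeval_eqmG {K C : Type} [Field K] [Field C] [Algebra K C] (e c m : ℕ)
    (q : ℕ → Polynomial K) (j : Fin (e + 1)) (z : Crd (dm e) → C) :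
    aeval z (eqm e c m q j) = aeval z (eqm e c m (fun k => (q k).map (algebraMap K C)) j) := by
  unfold eqm
  split_ifs
  · rw [← map_scr (K := K) (C := C), aeval_map_algebraMap]
  · have h1 : MvPolynomial.map (algebraMap K C) (qm e c m q) =
        qm e c m (fun k => (q k).map (algebraMap K C)) := by
      unfold qm
      simp only [map_sum, map_mul, map_pow, MvPolynomial.map_X, MvPolynomial.map_C,
        Polynomial.coeff_map, map_mono]
    rw [← h1, aeval_map_algebraMap]

/-- The equations at a point. -/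
theorem pt_eqm {C : Type} [Field C] {e c m : ℕ} {q : ℕ → Polynomial C} {z : Crd (dm e) → C}
    (hz : IsPt z) (hz0 : ∀ j, aeval z (eqm e c m q j) = 0) :
    ∃ u : C, (∀ k ≤ e, z (cu e k) = u * (z (cs e) ^ (e - k) * z (ct e) ^ k)) ∧
      ∑ k ∈ Finset.range (m + 1), hv (c + k * e) (q k) (z (cs e)) (z (ct e)) * u ^ k *
        z (cv e) ^ (m - k) = 0 := by
  obtain ⟨u, hu⟩ := scroll (pt_zero hz) (fun k hk => by
    have h1 := hz0 ⟨k, by omega⟩
    unfold eqm at h1
    rw [if_pos hk] at h1
    exact h1)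
  refine ⟨u, hu, ?_⟩
  rw [← aeval_qm q hu]
  have h1 := hz0 (Fin.last e)
  unfold eqm at h1
  rw [if_neg (by simp)] at h1
  exact h1

/-- The maps have no common zero. -/
theorem not_all_zeroM {C : Type} [Field C] {n e β c m : ℕ} {q : ℕ → Polynomial C}
    {a b : Fin n → Polynomial C} (ha : ∀ i, (a i).natDegree ≤ β + e)
    (hb : ∀ i, (b i).natDegree ≤ β)
    (hfin : ∀ x l m : C, (∀ i, l * (a i).eval x + m * (b i).eval x = 0) → l = 0 ∧ m = 0)
    (hinf : ∀ l m : C, (∀ i, l * (a i).coeff (β + e) + m * (b i).coeff β = 0) → l = 0 ∧ m = 0)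
    {z : Crd (dm e) → C} (hz : IsPt z) (hz0 : ∀ j, aeval z (eqm e c m q j) = 0) :
    ∃ i, aeval z (ff e β (a i) (b i)) ≠ 0 := by
  obtain ⟨u, hu, -⟩ := pt_eqm hz hz0
  by_contra hno
  push Not at hno
  have hall : ∀ i, u * hv (β + e) (a i) (z (cs e)) (z (ct e)) +
      z (cv e) * hv β (b i) (z (cs e)) (z (ct e)) = 0 := by
    intro i
    rw [← aeval_ff _ _ hu]
    exact hno i
  have huv : u = 0 ∧ z (cv e) = 0 := by
    by_cases hs : z (cs e) = 0
    · have ht : z (ct e) ≠ 0 := by
        rcases pt_zero hz with h | h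
        · exact absurd hs h
        · exact h
      have := hinf (u * z (ct e) ^ (β + e)) (z (cv e) * z (ct e) ^ β) (fun i => by
        have h1 := hall i
        rw [hs, hv_zero, hv_zero] at h1
        linear_combination h1)
      rw [mul_eq_zero, mul_eq_zero] at this
      exact ⟨this.1.resolve_right (pow_ne_zero _ ht), this.2.resolve_right (pow_ne_zero _ ht)⟩
    · have := hfin (z (ct e) / z (cs e)) (u * z (cs e) ^ (β + e)) (z (cv e) * z (cs e) ^ β)
        (fun i => by
          have h1 := hall i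
          rw [hv_eq (ha i) hs, hv_eq (hb i) hs] at h1
          linear_combination h1)
      rw [mul_eq_zero, mul_eq_zero] at this
      exact ⟨this.1.resolve_right (pow_ne_zero _ hs), this.2.resolve_right (pow_ne_zero _ hs)⟩
  rcases pt_one hz with h1 | ⟨k, hk, h1⟩
  · exact h1 huv.2
  · apply h1
    rw [hu k hk, huv.1, zero_mul]

/-- A form with constant coefficients has a zero. -/
theorem exists_zero_form {C : Type} [Field C] [IsAlgClosed C] (m : ℕ) (hm : 0 < m) (γ : ℕ → C) :
    ∃ u v : C, (u ≠ 0 ∨ v ≠ 0) ∧ ∑ k ∈ Finset.range (m + 1), γ k * u ^ k * v ^ (m - k) = 0 := by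
  classical
  by_cases h0 : γ m = 0
  · refine ⟨1, 0, Or.inl one_ne_zero, ?_⟩
    refine Finset.sum_eq_zero fun k hk => ?_
    have hk' := Finset.mem_range.1 hk
    rcases Nat.lt_or_ge k m with h | h
    · rw [zero_pow (by omega), mul_zero]
    · have : k = m := by omega
      rw [this, h0, zero_mul, zero_mul]
  · set f : Polynomial C := ∑ k ∈ Finset.range (m + 1), Polynomial.monomial k (γ k) with hf
    have hc : ∀ i, f.coeff i = if i ≤ m then γ i else 0 := by
      intro i
      rw [hf, Polynomial.finsetSum_coeff]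
      simp only [Polynomial.coeff_monomial]
      rw [Finset.sum_ite_eq' (Finset.range (m + 1)) i γ]
      simp only [Finset.mem_range, Nat.lt_succ_iff]
    have hdeg : f.degree ≠ 0 := by
      intro h
      have h1 : f.natDegree = 0 := Polynomial.natDegree_eq_of_degree_eq_some h
      have h2 := Polynomial.coeff_eq_zero_of_natDegree_lt (p := f) (n := m) (by omega)
      rw [hc m, if_pos le_rfl] at h2
      exact h0 h2
    obtain ⟨u, hu⟩ := IsAlgClosed.exists_root f hdeg
    refine ⟨u, 1, Or.inr one_ne_zero, ?_⟩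
    have h3 : f.eval u = 0 := hu
    rw [hf, Polynomial.eval_finsetSum] at h3
    rw [← h3]
    refine Finset.sum_congr rfl fun k hk => ?_
    rw [one_pow, mul_one, Polynomial.eval_monomial]

end Pool.Agent.H20.HE
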