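import Pool.Agent.H20.HE.StmG

/-! A basis which is independent at every point over an extension field, also at infinity. -/

set_option autoImplicit false

namespace Pool.Agent.H20.HE

open Polynomial

variable {K : Type} [Field K] {n : ℕ}

/-- the data of a pair of vectors with the same span over the rational functions -/
def Gd (a b : Fin n → K[X]) (α β : ℕ) (D : K[X]) (a' b' : Fin n → K[X]) (r : Fin 4 → K[X]) : Prop :=
  D ≠ 0 ∧ (∀ i, (a' i).natDegree ≤ α) ∧ (∀ i, (b' i).natDegree ≤ β) ∧
    (∀ i, D * a i = r 0 * a' i + r 1 * b' i) ∧ ∀ i, D * b i = r 2 * a' i + r 3 * b' i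

theorem Gd.swap {a b : Fin n → K[X]} {α β : ℕ} {D : K[X]} {a' b' : Fin n → K[X]} {r : Fin 4 → K[X]}
    (h : Gd a b α β D a' b' r) : Gd a b β α D b' a' ![r 1, r 0, r 3, r 2] := by
  obtain ⟨h1, h2, h3, h4, h5⟩ := h
  refine ⟨h1, h3, h2, fun i => ?_, fun i => ?_⟩
  · rw [h4 i]
    simp only [Matrix.cons_val_zero, Matrix.cons_val_one]
    ring
  · rw [h5 i]
    simp
    ring

theorem Gd.replace {a b : Fin n → K[X]} {α β : ℕ} {D : K[X]} {a' b' : Fin n → K[X]}
    {r : Fin 4 → K[X]} (h : Gd a b α β D a' b' r) {σ ρ τ : K[X]} {g : Fin n → K[X]} (hσ : σ ≠ 0)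
    (hg : ∀ i, σ * a' i = ρ * g i + τ * b' i) {α' : ℕ} (hα' : ∀ i, (g i).natDegree ≤ α') :
    Gd a b α' β (D * σ) g b' ![r 0 * ρ, r 0 * τ + σ * r 1, r 2 * ρ, r 2 * τ + σ * r 3] := by
  obtain ⟨h1, h2, h3, h4, h5⟩ := h
  refine ⟨mul_ne_zero h1 hσ, hα', h3, fun i => ?_, fun i => ?_⟩
  · simp
    linear_combination σ * h4 i + r 0 * hg i
  · simp
    linear_combination σ * h5 i + r 2 * hg i

theorem Gd.minor {a b : Fin n → K[X]} (hab : ∃ i j, a i * b j ≠ a j * b i) {α β : ℕ} {D : K[X]}
    {a' b' : Fin n → K[X]} {r : Fin 4 → K[X]} (h : Gd a b α β D a' b' r) :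
    ∃ i j, a' i * b' j - a' j * b' i ≠ 0 := by
  obtain ⟨h1, h2, h3, h4, h5⟩ := h
  obtain ⟨i, j, hij⟩ := hab
  refine ⟨i, j, fun h0 => hij ?_⟩
  apply mul_left_cancel₀ (mul_ne_zero h1 h1)
  calc D * D * (a i * b j) = (D * a i) * (D * b j) := by ring
    _ = (D * a j) * (D * b i) := by
      rw [h4 i, h4 j, h5 i, h5 j]
      linear_combination (r 0 * r 3 - r 1 * r 2) * h0
    _ = D * D * (a j * b i) := by ring

theorem minor_zero {C : Type} [Field C] {l m : C} (hlm : ¬ (l = 0 ∧ m = 0)) {x₁ y₁ x₂ y₂ : C}
    (h1 : l * x₁ + m * y₁ = 0) (h2 : l * x₂ + m * y₂ = 0) : x₁ * y₂ - x₂ * y₁ = 0 := by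
  by_contra h0
  apply hlm
  constructor
  · apply mul_right_cancel₀ h0
    linear_combination y₂ * h1 - y₁ * h2
  · apply mul_right_cancel₀ h0
    linear_combination x₁ * h2 - x₂ * h1

theorem basisG : S_basisG := by
  intro K C _ _ _ n a b hab
  classical
  -- a minimal pair
  have hex : ∃ N, ∃ α β D a' b' r, α + β = N ∧ Gd (n := n) a b α β D a' b' r := by
    set N := Finset.univ.sup (fun i => max (a i).natDegree (b i).natDegree) with hN
    have hle : ∀ i, max (a i).natDegree (b i).natDegree ≤ N := fun i =>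
      Finset.le_sup (f := fun i => max (a i).natDegree (b i).natDegree) (Finset.mem_univ i)
    refine ⟨N + N, N, N, 1, a, b, ![1, 0, 0, 1], rfl, one_ne_zero, fun i => ?_, fun i => ?_,
      fun i => ?_, fun i => ?_⟩
    · exact (le_max_left _ _).trans (hle i)
    · exact (le_max_right _ _).trans (hle i)
    · simp
    · simp
  obtain ⟨α₀, β₀, D₀, a₀, b₀, r₀, hN₀, hG₀⟩ := Nat.find_spec hex
  have hmin : ∀ {α β D a' b' r}, Gd (n := n) a b α β D a' b' r → Nat.find hex ≤ α + β :=
    fun {α β D a' b' r} h => Nat.find_min' hex ⟨α, β, D, a', b', r, rfl, h⟩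
  obtain ⟨α, β, D, a', b', r, hβα, hsum, hG⟩ : ∃ α β D a' b' r, β ≤ α ∧ α + β = Nat.find hex ∧
      Gd (n := n) a b α β D a' b' r := by
    rcases le_total β₀ α₀ with h | h
    · exact ⟨_, _, _, _, _, _, h, hN₀, hG₀⟩
    · exact ⟨_, _, _, _, _, _, h, by omega, hG₀.swap⟩
  obtain ⟨i₀, j₀, hij⟩ := hG.minor hab
  have hD := hG.1
  have hα := hG.2.1
  have hβ := hG.2.2.1
  -- the two ways of making the pair smaller
  have redA : ∀ {σ ρ τ : K[X]} {g : Fin n → K[X]}, σ ≠ 0 →
      (∀ i, σ * a' i = ρ * g i + τ * b' i) → (∀ i, (g i).natDegree ≤ α - 1) → 1 ≤ α → False := by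
    intro σ ρ τ g hσ hg hdeg h1
    have := hmin (hG.replace hσ hg hdeg)
    omega
  have redB : ∀ {g : Fin n → K[X]} {ρ : K[X]},
      (∀ i, b' i = ρ * g i) → (∀ i, (g i).natDegree ≤ β - 1) → 1 ≤ β → False := by
    intro g ρ hg hdeg h1
    have := hmin (hG.swap.replace (σ := 1) (ρ := ρ) (τ := 0) (g := g) one_ne_zero
      (fun i => by rw [hg i]; ring) hdeg)
    omega
  refine ⟨α, β, D, a', b', r, hβα, hD, hα, hβ, hG.2.2.2.1, hG.2.2.2.2, ?_, ?_⟩
  · intro x l m h0
    by_contra hlm
    have hM : ∀ i j, aeval x (a' i * b' j - a' j * b' i) = 0 := by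
      intro i j
      rw [map_sub, map_mul, map_mul]
      exact minor_zero hlm (h0 i) (h0 j)
    have hint : IsIntegral K x := by
      refine IsAlgebraic.isIntegral ⟨_, hij, hM i₀ j₀⟩
    set π := minpoly K x with hπ
    have hirr : Irreducible π := minpoly.irreducible hint
    have hmon : π.Monic := minpoly.monic hint
    have hpos : 0 < π.natDegree := hirr.natDegree_pos
    have hdvd : ∀ i j, π ∣ a' i * b' j - a' j * b' i := fun i j => minpoly.dvd K x (hM i j)
    by_cases hb : ∀ i, π ∣ b' i
    · choose g hg using hb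
      have hb1 : 1 ≤ β := by
        by_contra hb1
        have hb0 : ∀ i, b' i = 0 := by
          intro i
          by_contra hne
          have h1 := natDegree_le_of_dvd (Dvd.intro _ (hg i).symm) hne
          have h2 := hβ i
          omega
        apply hij
        rw [hb0 i₀, hb0 j₀]
        ring
      refine redB (g := g) (ρ := π) hg (fun i => ?_) hb1
      by_cases hgi : g i = 0
      · rw [hgi, natDegree_zero]
        exact Nat.zero_le _
      · have h1 := hβ i
        rw [hg i, natDegree_mul hirr.ne_zero hgi] at h1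
        omega
    · push Not at hb
      obtain ⟨i₁, hi₁⟩ := hb
      have hp1 : b' i₁ %ₘ π ≠ 0 := by
        intro h1
        exact hi₁ ((modByMonic_eq_zero_iff_dvd hmon).1 h1)
      have hdv : ∀ j, π ∣ (b' i₁ %ₘ π) * a' j - (a' i₁ %ₘ π) * b' j := by
        intro j
        have h1 := hdvd j i₁
        have h2 : (b' i₁ %ₘ π) = b' i₁ - π * (b' i₁ /ₘ π) := modByMonic_eq_sub_mul_div _ _
        have h3 : (a' i₁ %ₘ π) = a' i₁ - π * (a' i₁ /ₘ π) := modByMonic_eq_sub_mul_div _ _
        obtain ⟨w, hw⟩ := h1
        refine ⟨w - (b' i₁ /ₘ π) * a' j + (a' i₁ /ₘ π) * b' j, ?_⟩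
        rw [h2, h3]
        linear_combination hw
      choose g hg using hdv
      have hd1 : (b' i₁ %ₘ π).natDegree ≤ π.natDegree - 1 := by
        have := natDegree_modByMonic_lt (b' i₁) hmon (by
          intro h1
          rw [h1, natDegree_one] at hpos
          exact lt_irrefl _ hpos)
        omega
      have hd2 : (a' i₁ %ₘ π).natDegree ≤ π.natDegree - 1 := by
        have := natDegree_modByMonic_lt (a' i₁) hmon (by
          intro h1
          rw [h1, natDegree_one] at hpos
          exact lt_irrefl _ hpos)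
        omega
      have hdeg : ∀ j, ((b' i₁ %ₘ π) * a' j - (a' i₁ %ₘ π) * b' j).natDegree ≤
          π.natDegree - 1 + α := by
        intro j
        refine (natDegree_sub_le _ _).trans (max_le ?_ ?_)
        · exact natDegree_mul_le.trans (Nat.add_le_add hd1 (hα j))
        · exact natDegree_mul_le.trans (Nat.add_le_add hd2 ((hβ j).trans hβα))
      have hdg : ∀ j, g j ≠ 0 → (g j).natDegree + 1 ≤ α := by
        intro j hj
        have h1 := hdeg j
        rw [hg j, natDegree_mul hirr.ne_zero hj] at h1
        omega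
      have hα1 : 1 ≤ α := by
        by_contra hα0
        have hg0 : ∀ j, g j = 0 := by
          intro j
          by_contra hj
          have := hdg j hj
          omega
        have h1 : ∀ j, (b' i₁ %ₘ π) * a' j = (a' i₁ %ₘ π) * b' j := by
          intro j
          have := hg j
          rw [hg0 j, mul_zero, sub_eq_zero] at this
          exact this
        apply hij
        apply mul_left_cancel₀ hp1
        rw [mul_zero]
        linear_combination b' j₀ * h1 i₀ - b' i₀ * h1 j₀
      refine redA (σ := b' i₁ %ₘ π) (ρ := π) (τ := a' i₁ %ₘ π) (g := g) hp1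
        (fun i => by linear_combination hg i) (fun i => ?_) hα1
      by_cases hgi : g i = 0
      · rw [hgi, natDegree_zero]
        exact Nat.zero_le _
      · have := hdg i hgi
        omega
  · intro l m h0
    by_contra hlm
    have hM : ∀ i j, (a' i).coeff α * (b' j).coeff β - (a' j).coeff α * (b' i).coeff β = 0 := by
      intro i j
      apply (algebraMap K C).injective
      rw [map_zero, map_sub, map_mul, map_mul]
      exact minor_zero hlm (h0 i) (h0 j)
    by_cases hb : ∀ i, (b' i).coeff β = 0
    · have hb1 : 1 ≤ β := by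
        by_contra hb1
        have hβ0 : β = 0 := by omega
        have hb0 : ∀ i, b' i = 0 := by
          intro i
          have h1 := hβ i
          have h2 := hb i
          rw [hβ0] at h1 h2
          rw [eq_C_of_natDegree_le_zero h1, h2, C_0]
        apply hij
        rw [hb0 i₀, hb0 j₀]
        ring
      exact redB (g := b') (ρ := 1) (fun i => (one_mul _).symm)
        (fun i => natDegree_le_pred (hβ i) (hb i)) hb1
    · push Not at hb
      obtain ⟨i₁, hi₁⟩ := hb
      set g : Fin n → K[X] := fun j => Polynomial.C ((b' i₁).coeff β) * a' j -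
        Polynomial.C ((a' i₁).coeff α) * X ^ (α - β) * b' j with hg
      have hgd : ∀ j, (g j).natDegree ≤ α := by
        intro j
        refine (natDegree_sub_le _ _).trans (max_le ?_ ?_)
        · exact (natDegree_C_mul_le _ _).trans (hα j)
        · rw [mul_assoc]
          refine (natDegree_C_mul_le _ _).trans (natDegree_mul_le.trans ?_)
          rw [natDegree_X_pow]
          have := hβ j
          omega
      have hgc : ∀ j, (g j).coeff α = 0 := by
        intro j
        rw [hg]
        simp only [coeff_sub, coeff_C_mul, mul_assoc]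
        have e1 : (X ^ (α - β) * b' j).coeff α = (b' j).coeff β := by
          have : α = β + (α - β) := by omega
          conv_lhs => rw [this]
          rw [Nat.add_sub_cancel_left, coeff_X_pow_mul]
        rw [e1]
        linear_combination hM j i₁
      have hrel : ∀ j, Polynomial.C ((b' i₁).coeff β) * a' j = 1 * g j +
          (Polynomial.C ((a' i₁).coeff α) * X ^ (α - β)) * b' j := by
        intro j
        rw [hg]
        ring
      have hσ : Polynomial.C ((b' i₁).coeff β) ≠ 0 := C_ne_zero.2 hi₁
      have hα1 : 1 ≤ α := by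
        by_contra hα0
        have hα00 : α = 0 := by omega
        have hg0 : ∀ j, g j = 0 := by
          intro j
          have h1 := hgd j
          have h2 := hgc j
          rw [hα00] at h1 h2
          rw [eq_C_of_natDegree_le_zero h1, h2, C_0]
        apply hij
        apply mul_left_cancel₀ hσ
        rw [mul_zero]
        have h1 := hrel i₀
        have h2 := hrel j₀
        rw [hg0] at h1 h2
        linear_combination b' j₀ * h1 - b' i₀ * h2
      exact redA hσ hrel (fun i => natDegree_le_pred (hgd i) (hgc i)) hα1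

end Pool.Agent.H20.HE
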