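import Pool.Agent.H20.HE.StmM

/-! The form of a curve on a scroll in the new basis, divided by its content. -/

set_option autoImplicit false

namespace Pool.Agent.H20.HE

open Polynomial

section

variable {K C : Type} [Field K] [Field C] [Algebra K C]

/-- the value of a form -/
noncomputable def FV (C : Type) [Field C] [Algebra K C] (m : ℕ) (q : ℕ → K[X]) (x u v : C) : C :=
  ∑ k ∈ Finset.range (m + 1), aeval x (q k) * u ^ k * v ^ (m - k)

theorem FV_mul (m : ℕ) (q : ℕ → K[X]) (α β : K[X]) : ∃ q' : ℕ → K[X], ∀ x u v : C,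
    FV C (m + 1) q' x u v = (aeval x α * u + aeval x β * v) * FV C m q x u v := by
  refine ⟨fun k => (if k = 0 then 0 else α * q (k - 1)) + (if k ≤ m then β * q k else 0),
    fun x u v => ?_⟩
  unfold FV
  simp only [map_add, add_mul]
  rw [Finset.sum_add_distrib]
  congr 1
  · rw [Finset.sum_range_succ', Finset.mul_sum]
    simp only [if_true, map_zero, zero_mul, add_zero]
    refine Finset.sum_congr rfl fun k hk => ?_
    have hk' := Finset.mem_range.1 hk
    rw [if_neg (Nat.succ_ne_zero k), Nat.add_sub_cancel, map_mul, Nat.add_sub_add_right]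
    ring
  · rw [Finset.sum_range_succ, if_neg (by omega), map_zero, zero_mul, zero_mul, add_zero,
      Finset.mul_sum]
    refine Finset.sum_congr rfl fun k hk => ?_
    have hk' := Finset.mem_range.1 hk
    rw [if_pos (by omega), map_mul, show m + 1 - k = (m - k) + 1 by omega]
    ring

theorem FV_pow (m : ℕ) (q : ℕ → K[X]) (α β : K[X]) (j : ℕ) : ∃ q' : ℕ → K[X], ∀ x u v : C,
    FV C (m + j) q' x u v = (aeval x α * u + aeval x β * v) ^ j * FV C m q x u v := by
  induction j with
  | zero => exact ⟨q, fun x u v => by rw [pow_zero, one_mul, Nat.add_zero]⟩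
  | succ j ih =>
    obtain ⟨q₁, h₁⟩ := ih
    obtain ⟨q₂, h₂⟩ := FV_mul (C := C) (m + j) q₁ α β
    refine ⟨q₂, fun x u v => ?_⟩
    rw [← Nat.add_assoc, h₂, h₁]
    ring

theorem FV_sum (m : ℕ) (S : Finset ℕ) (Q : ℕ → ℕ → K[X]) (x u v : C) :
    FV C m (fun j => ∑ k ∈ S, Q k j) x u v = ∑ k ∈ S, FV C m (Q k) x u v := by
  unfold FV
  rw [Finset.sum_comm]
  refine Finset.sum_congr rfl fun k _ => ?_
  rw [map_sum, Finset.sum_mul, Finset.sum_mul]

theorem FV_exists (m : ℕ) (p : ℕ → K[X]) (α β γ δ : K[X]) : ∃ q : ℕ → K[X], ∀ x u v : C,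
    FV C m q x u v = ∑ k ∈ Finset.range (m + 1), aeval x (p k) *
      (aeval x α * u + aeval x β * v) ^ (m - k) * (aeval x γ * u + aeval x δ * v) ^ k := by
  have h : ∀ k, ∃ q : ℕ → K[X], k ≤ m → ∀ x u v : C, FV C m q x u v = aeval x (p k) *
      (aeval x α * u + aeval x β * v) ^ (m - k) * (aeval x γ * u + aeval x δ * v) ^ k := by
    intro k
    obtain ⟨q₁, h₁⟩ := FV_pow (C := C) 0 (fun _ => p k) α β (m - k)
    obtain ⟨q₂, h₂⟩ := FV_pow (C := C) (0 + (m - k)) q₁ γ δ k
    refine ⟨q₂, fun hk x u v => ?_⟩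
    have h3 := h₂ x u v
    rw [h₁, show 0 + (m - k) + k = m by omega] at h3
    rw [h3]
    have h4 : FV C 0 (fun _ => p k) x u v = aeval x (p k) := by
      unfold FV
      simp
    rw [h4]
    ring
  choose Q hQ using h
  refine ⟨fun j => ∑ k ∈ Finset.range (m + 1), Q k j, fun x u v => ?_⟩
  rw [FV_sum]
  refine Finset.sum_congr rfl fun k hk => ?_
  exact hQ k (by have := Finset.mem_range.1 hk; omega) x u v

/-- The content. -/
theorem content (m : ℕ) (q : ℕ → K[X]) (hq : ∃ k ≤ m, q k ≠ 0) : ∃ (D : K[X]) (q' : ℕ → K[X]),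
    D ≠ 0 ∧ (∀ k ≤ m, q k = D * q' k) ∧ ∀ x : C, ∃ k ≤ m, aeval x (q' k) ≠ 0 := by
  classical
  set I : Ideal K[X] := Ideal.span (Set.range fun k : Fin (m + 1) => q k) with hI
  set D := Submodule.IsPrincipal.generator I with hD
  have hdvd : ∀ k, ∃ w, k ≤ m → q k = D * w := by
    intro k
    by_cases hk : k ≤ m
    · have h1 : q k ∈ I := Ideal.subset_span ⟨⟨k, by omega⟩, rfl⟩
      obtain ⟨w, hw⟩ := (Submodule.IsPrincipal.mem_iff_generator_dvd I).1 h1
      exact ⟨w, fun _ => hw⟩
    · exact ⟨0, fun h => absurd h hk⟩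
  choose q' hq' using hdvd
  have hD0 : D ≠ 0 := by
    intro h0
    obtain ⟨k, hk, hk0⟩ := hq
    apply hk0
    rw [hq' k hk, h0, zero_mul]
  refine ⟨D, q', hD0, hq', fun x => ?_⟩
  have h1 : D ∈ I := Submodule.IsPrincipal.generator_mem I
  rw [hI, Ideal.mem_span_range_iff_exists_fun] at h1
  obtain ⟨w, hw⟩ := h1
  have h2 : ∑ k : Fin (m + 1), w k * q' k = 1 := by
    apply mul_left_cancel₀ hD0
    rw [mul_one]
    conv_rhs => rw [← hw]
    rw [Finset.mul_sum]
    refine Finset.sum_congr rfl fun k _ => ?_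
    rw [hq' k (by omega)]
    ring
  by_contra hno
  push Not at hno
  have h3 := congrArg (aeval x) h2
  rw [map_sum, map_one, Finset.sum_eq_zero] at h3
  · exact zero_ne_one h3
  · intro k _
    rw [map_mul, hno k (by omega), mul_zero]

end

theorem eval_form {K C : Type} [Field K] [Field C] [Algebra K C] (m : ℕ) (P : Polynomial K[X])
    (w₀ w₁ : C[X]) (x : C) :
    eval x (∑ k ∈ Finset.range (m + 1), (P.coeff k).map (algebraMap K C) * w₀ ^ (m - k) * w₁ ^ k) =
      ∑ k ∈ Finset.range (m + 1), aeval x (P.coeff k) * (eval x w₀) ^ (m - k) *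
        (eval x w₁) ^ k := by
  rw [eval_finsetSum]
  refine Finset.sum_congr rfl fun k _ => ?_
  rw [eval_mul, eval_mul, eval_pow, eval_pow, eval_map_algebraMap]

/-- An irreducible polynomial of degree at least two has no rational zero. -/
theorem no_root {C : Type} [Field C] (P : Polynomial C[X]) (m : ℕ) (hm : P.natDegree = m)
    (hm2 : 2 ≤ m) (hP : Irreducible P) {w₀ w₁ : C[X]} (hw : w₀ ≠ 0 ∨ w₁ ≠ 0) :
    ∑ k ∈ Finset.range (m + 1), P.coeff k * w₀ ^ (m - k) * w₁ ^ k ≠ 0 := by
  intro h0
  have hpm : P.coeff m ≠ 0 := by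
    rw [← hm]
    apply leadingCoeff_ne_zero.2
    exact hP.ne_zero
  by_cases hw0 : w₀ = 0
  · have hw1 : w₁ ≠ 0 := by
      rcases hw with h | h
      · exact absurd hw0 h
      · exact h
    rw [hw0, Finset.sum_eq_single m] at h0
    · rw [Nat.sub_self, pow_zero, mul_one] at h0
      exact mul_ne_zero hpm (pow_ne_zero _ hw1) h0
    · intro k hk hkm
      have hk' := Finset.mem_range.1 hk
      rw [zero_pow (by omega), mul_zero, zero_mul]
    · intro h1
      exact absurd (Finset.mem_range.2 (Nat.lt_succ_self m)) h1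
  · have hprim : P.IsPrimitive := hP.isPrimitive (by omega)
    have hinj : Function.Injective (algebraMap C[X] (FractionRing C[X])) :=
      IsFractionRing.injective _ _
    have hirr := (hprim.irreducible_iff_irreducible_map_fraction_map (K := FractionRing C[X])).1 hP
    set ι := algebraMap C[X] (FractionRing C[X]) with hι
    have hι0 : ι w₀ ≠ 0 := fun h => hw0 (hinj (by rw [h, map_zero]))
    have hroot : IsRoot (P.map ι) (ι w₁ / ι w₀) := by
      rw [IsRoot.def, eval_eq_sum_range' (n := m + 1)
        (Nat.lt_succ_of_le (natDegree_map_le.trans hm.le))]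
      apply mul_left_cancel₀ (pow_ne_zero m hι0)
      rw [mul_zero, ← map_zero ι, ← h0, map_sum, Finset.mul_sum]
      refine Finset.sum_congr rfl fun k hk => ?_
      have hk' := Finset.mem_range.1 hk
      have e1 : ι w₀ ^ m = ι w₀ ^ (m - k) * ι w₀ ^ k := by
        rw [← pow_add]
        congr 1
        omega
      rw [coeff_map, e1, div_pow, map_mul, map_mul, map_pow, map_pow]
      have := pow_ne_zero k hι0
      field_simp
    have h1 := degree_eq_one_of_irreducible_of_root hirr hroot
    rw [degree_map_eq_of_injective hinj] at h1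
    have h2 : P.natDegree = 1 := natDegree_eq_of_degree_eq_some (by
      rw [h1]
      rfl)
    omega

theorem form : S_form := by
  intro K C _ _ _ _ P m hm hm2 hP r hdet
  classical
  have hinj : Function.Injective (algebraMap K C) := (algebraMap K C).injective
  have hinjR : Function.Injective (Polynomial.mapRingHom (algebraMap K C)) :=
    Polynomial.map_injective _ hinj
  obtain ⟨q, hq⟩ := FV_exists (C := C) m (fun k => P.coeff k) (r 3) (-r 2) (-r 1) (r 0)
  have hq' : ∀ x u v : C, FV C m q x u v = ∑ k ∈ Finset.range (m + 1), aeval x (P.coeff k) *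
      (aeval x (r 3) * u - aeval x (r 2) * v) ^ (m - k) *
      (aeval x (r 0) * v - aeval x (r 1) * u) ^ k := by
    intro x u v
    rw [hq x u v]
    refine Finset.sum_congr rfl fun k _ => ?_
    rw [map_neg, map_neg]
    congr 2
    · ring
    · ring
  have hne : ∀ u v : C, (u ≠ 0 ∨ v ≠ 0) → ∃ x : C, FV C m q x u v ≠ 0 := by
    intro u v huv
    by_contra hno
    push Not at hno
    obtain ⟨w₀, hw₀⟩ : ∃ w : C[X], w = (r 3).map (algebraMap K C) * Polynomial.C u -
      (r 2).map (algebraMap K C) * Polynomial.C v := ⟨_, rfl⟩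
    obtain ⟨w₁, hw₁⟩ : ∃ w : C[X], w = (r 0).map (algebraMap K C) * Polynomial.C v -
      (r 1).map (algebraMap K C) * Polynomial.C u := ⟨_, rfl⟩
    have hdetC : (r 0).map (algebraMap K C) * (r 3).map (algebraMap K C) -
        (r 1).map (algebraMap K C) * (r 2).map (algebraMap K C) ≠ 0 := by
      intro h0
      apply hdet
      apply Polynomial.map_injective _ hinj
      rw [Polynomial.map_sub, Polynomial.map_mul, Polynomial.map_mul, Polynomial.map_zero]
      exact h0
    have hw : w₀ ≠ 0 ∨ w₁ ≠ 0 := by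
      by_contra hno2
      push Not at hno2
      obtain ⟨g0, g1⟩ := hno2
      rw [g0] at hw₀
      rw [g1] at hw₁
      have e1 : Polynomial.C u = 0 := by
        apply mul_left_cancel₀ hdetC
        linear_combination (-(r 0).map (algebraMap K C)) * hw₀ - (r 2).map (algebraMap K C) * hw₁
      have e2 : Polynomial.C v = 0 := by
        apply mul_left_cancel₀ hdetC
        linear_combination (-(r 1).map (algebraMap K C)) * hw₀ - (r 3).map (algebraMap K C) * hw₁
      rcases huv with h | h
      · exact h (Polynomial.C_eq_zero.1 e1)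
      · exact h (Polynomial.C_eq_zero.1 e2)
    have hnr := no_root (P.map (Polynomial.mapRingHom (algebraMap K C))) m
      (by rw [natDegree_map_eq_of_injective hinjR, hm]) hm2 hP hw
    apply hnr
    apply Polynomial.funext
    intro x
    rw [eval_zero, ← hno x, hq']
    simp only [coeff_map, coe_mapRingHom]
    rw [eval_form]
    refine Finset.sum_congr rfl fun k _ => ?_
    rw [hw₀, hw₁]
    simp only [eval_sub, eval_mul, eval_C, eval_map_algebraMap]
  obtain ⟨D, q', hD, hDq, hq0⟩ := content (C := C) m q (by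
    obtain ⟨x, hx⟩ := hne 1 0 (Or.inl one_ne_zero)
    by_contra hno
    push Not at hno
    apply hx
    unfold FV
    refine Finset.sum_eq_zero fun k hk => ?_
    rw [hno k (by have := Finset.mem_range.1 hk; omega), map_zero, zero_mul, zero_mul])
  have hF : ∀ x u v : C, FV C m q x u v = aeval x D * FV C m q' x u v := by
    intro x u v
    unfold FV
    rw [Finset.mul_sum]
    refine Finset.sum_congr rfl fun k hk => ?_
    rw [hDq k (by have := Finset.mem_range.1 hk; omega), map_mul]
    ring
  refine ⟨D, q', hD, fun x u v => ?_, hq0, fun u v huv => ?_⟩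
  · rw [← hq', hF]
    rfl
  · obtain ⟨x, hx⟩ := hne u v huv
    refine ⟨x, fun h0 => hx ?_⟩
    rw [hF]
    unfold FV
    rw [h0, mul_zero]

end Pool.Agent.H20.HE
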