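import Pool.Agent.H20.HE.AsmM

/-! Curves on rational scrolls over an arbitrary perfectoid field: the main theorem. -/

set_option autoImplicit false

namespace Pool.Agent.H20.HE

open MvPolynomial Pool.Agent.X271.TN
open Pool.Agent.Y129.TA (Tilting TiltPair DimGE DimLE IsForm IsClosedCone)
open Pool.Agent.Y129.TB (BaseField IsConeOver InTube Approximable DimLEOver CoeffsIn ThetaEq)

theorem evalEval_eq {K C : Type} [Field K] [Field C] [Algebra K C]
    (P : Polynomial (Polynomial K)) (x y : C) :
    (P.map (Polynomial.mapRingHom (algebraMap K C))).evalEval x y =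
      ∑ k ∈ Finset.range (P.natDegree + 1), Polynomial.aeval x (P.coeff k) * y ^ k := by
  rw [Polynomial.evalEval, Polynomial.eval_eq_sum_range' (n := P.natDegree + 1)
    (Nat.lt_succ_of_le Polynomial.natDegree_map_le), Polynomial.eval_finsetSum]
  refine Finset.sum_congr rfl fun k hk => ?_
  rw [Polynomial.eval_mul, Polynomial.eval_pow, Polynomial.eval_C, Polynomial.coeff_map,
    Polynomial.coe_mapRingHom, Polynomial.eval_map_algebraMap]

/-- A point of the curve over a general parameter. -/
theorem point_of_form {C : Type} [Field C] {n m : ℕ} {a b a' b' : Fin n → C} {r0 r1 r2 r3 D : C}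
    (ha : ∀ i, D * a i = r0 * a' i + r1 * b' i) (hb : ∀ i, D * b i = r2 * a' i + r3 * b' i)
    (hdet : r0 * r3 - r1 * r2 ≠ 0) {p : ℕ → C} (hpm : p m ≠ 0) {u v : C}
    (h : ∑ k ∈ Finset.range (m + 1), p k * (r3 * u - r2 * v) ^ (m - k) *
      (r0 * v - r1 * u) ^ k = 0) :
    (u = 0 ∧ v = 0) ∨ ∃ κ y : C, ∑ k ∈ Finset.range (m + 1), p k * y ^ k = 0 ∧
      ∀ l, u * a' l + v * b' l = κ * (a l + y * b l) := by
  by_cases hU : r3 * u - r2 * v = 0
  · left
    rw [hU, Finset.sum_eq_single m] at h
    · rw [Nat.sub_self, pow_zero, mul_one, mul_eq_zero] at h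
      have hV : r0 * v - r1 * u = 0 := by
        rcases h with h | h
        · exact absurd h hpm
        · by_contra h0
          exact pow_ne_zero m h0 h
      constructor
      · apply mul_left_cancel₀ hdet
        linear_combination r0 * hU + r2 * hV
      · apply mul_left_cancel₀ hdet
        linear_combination r1 * hU + r3 * hV
    · intro k hk hkm
      have hk' := Finset.mem_range.1 hk
      rw [zero_pow (by omega), mul_zero, zero_mul]
    · intro h1
      exact absurd (Finset.mem_range.2 (Nat.lt_succ_self m)) h1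
  · right
    refine ⟨D * (r3 * u - r2 * v) / (r0 * r3 - r1 * r2), (r0 * v - r1 * u) / (r3 * u - r2 * v),
      ?_, fun l => ?_⟩
    · apply mul_left_cancel₀ (pow_ne_zero m hU)
      rw [mul_zero, ← h, Finset.mul_sum]
      refine Finset.sum_congr rfl fun k hk => ?_
      have hk' := Finset.mem_range.1 hk
      have e1 : (r3 * u - r2 * v) ^ m = (r3 * u - r2 * v) ^ (m - k) * (r3 * u - r2 * v) ^ k := by
        rw [← pow_add]
        congr 1
        omega
      rw [e1, div_pow]
      have := pow_ne_zero k hU
      field_simp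
    · have h1 := ha l
      have h2 := hb l
      have h3 : (r3 * u - r2 * v) * ((r0 * v - r1 * u) / (r3 * u - r2 * v)) = r0 * v - r1 * u :=
        mul_div_cancel₀ _ hU
      rw [div_mul_eq_mul_div, eq_div_iff hdet]
      generalize (r0 * v - r1 * u) / (r3 * u - r2 * v) = w at h3 ⊢
      linear_combination (-(r3 * u - r2 * v)) * h1 - (r0 * v - r1 * u) * h2 - D * b l * h3

/-- The main theorem, from the three pieces. -/
theorem scrollM (H1 : S_basisG) (H2 : S_limitM) (H3 : S_form) {p : ℕ} [Fact p.Prime]
    {C F K E : Type} [Field C]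
    [Field F] [CharP F p] [Field K] [Field E] [Algebra K C] [Algebra E F] [IsAlgClosed C]
    [IsAlgClosed F] (T : Tilting p C F) (BF : BaseField T K E) {n : ℕ}
    (P : Polynomial (Polynomial K))
    (hP : Irreducible (P.map (Polynomial.mapRingHom (algebraMap K C)))) (hP2 : 2 ≤ P.natDegree)
    (a b : Fin (n + 1) → Polynomial K) (hab : ∃ i j, a i * b j ≠ a j * b i)
    (X : Set (Fin (n + 1) → C)) (hX : IsConeOver K X)
    (hXab : ∀ x y : C, (P.map (Polynomial.mapRingHom (algebraMap K C))).evalEval x y = 0 →
      (fun i => Polynomial.aeval x (a i) + y * Polynomial.aeval x (b i)) ∈ X)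
    (hd : DimLEOver K X 1) : Approximable T.toTiltPair K E X 1 := by
  classical
  obtain ⟨α, β, D₀, a', b', r, hαβ, hD₀, hα, hβ, ha, hb, hfin, hinf⟩ := H1 K C (n + 1) a b hab
  obtain ⟨e, rfl⟩ := Nat.exists_eq_add_of_le hαβ
  have hinj : Function.Injective (algebraMap K C) := (algebraMap K C).injective
  have hdet : r 0 * r 3 - r 1 * r 2 ≠ 0 := by
    intro h0
    obtain ⟨i, j, hij⟩ := hab
    apply hij
    apply mul_left_cancel₀ (mul_ne_zero hD₀ hD₀)
    calc D₀ * D₀ * (a i * b j) = (D₀ * a i) * (D₀ * b j) := by ring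
      _ = (D₀ * a j) * (D₀ * b i) := by
        rw [ha i, ha j, hb i, hb j]
        linear_combination (a' i * b' j - a' j * b' i) * h0
      _ = D₀ * D₀ * (a j * b i) := by ring
  obtain ⟨m, hm⟩ : ∃ m, P.natDegree = m := ⟨_, rfl⟩
  rw [hm] at hP2
  obtain ⟨D, q, hD, hDq, hq0, hq1⟩ := H3 K C P m hm hP2 hP r hdet
  have hq00 : q 0 ≠ 0 := by
    intro h0
    obtain ⟨x, hx⟩ := hq1 0 1 (Or.inr one_ne_zero)
    apply hx
    refine Finset.sum_eq_zero fun k hk => ?_
    rcases Nat.eq_zero_or_pos k with h | h
    · rw [h, h0, map_zero, zero_mul, zero_mul]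
    · rw [zero_pow (by omega), mul_zero, zero_mul]
  obtain ⟨c, hc, hcinf⟩ := exists_cM e m q hq00
  obtain ⟨⟨J, hJ⟩, hcone⟩ := hX
  have hcC : ∀ k ≤ m, ((q k).map (algebraMap K C)).natDegree ≤ c + k * e := fun k hk =>
    Polynomial.natDegree_map_le.trans (hc k hk)
  have hq0C : ∀ x : C, ∃ k ≤ m, ((q k).map (algebraMap K C)).eval x ≠ 0 := by
    intro x
    obtain ⟨k, hk, hk1⟩ := hq0 x
    refine ⟨k, hk, ?_⟩
    rw [Polynomial.eval_map_algebraMap]
    exact hk1
  have hcinfC : ∃ k ≤ m, ((q k).map (algebraMap K C)).coeff (c + k * e) ≠ 0 := by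
    obtain ⟨k, hk, hk1⟩ := hcinf
    refine ⟨k, hk, ?_⟩
    rw [Polynomial.coeff_map]
    intro h0
    exact hk1 ((map_eq_zero _).1 h0)
  have da : ∀ i, ((a' i).map (algebraMap K C)).natDegree ≤ β + e := fun i =>
    Polynomial.natDegree_map_le.trans (hα i)
  have db : ∀ i, ((b' i).map (algebraMap K C)).natDegree ≤ β := fun i =>
    Polynomial.natDegree_map_le.trans (hβ i)
  have hfinC : ∀ x l m : C, (∀ i, l * ((a' i).map (algebraMap K C)).eval x +
      m * ((b' i).map (algebraMap K C)).eval x = 0) → l = 0 ∧ m = 0 := by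
    intro x l m h0
    refine hfin x l m fun i => ?_
    rw [← Polynomial.eval_map_algebraMap, ← Polynomial.eval_map_algebraMap]
    exact h0 i
  have hinfC' : ∀ l m : C, (∀ i, l * ((a' i).map (algebraMap K C)).coeff (β + e) +
      m * ((b' i).map (algebraMap K C)).coeff β = 0) → l = 0 ∧ m = 0 := by
    intro l m h0
    refine hinf l m fun i => ?_
    rw [← Polynomial.coeff_map, ← Polynomial.coeff_map]
    exact h0 i
  -- a point of the curve
  have hpm0 : P.coeff m ≠ 0 := by
    rw [← hm]
    apply Polynomial.leadingCoeff_ne_zero.2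
    rintro rfl
    rw [Polynomial.natDegree_zero] at hm
    omega
  have hex : ∃ x y : C, (P.map (Polynomial.mapRingHom (algebraMap K C))).evalEval x y = 0 := by
    obtain ⟨x, hx⟩ : ∃ x : C, Polynomial.aeval x (P.coeff m) ≠ 0 := by
      by_contra hno
      push Not at hno
      apply hpm0
      apply Polynomial.map_injective _ hinj
      rw [Polynomial.map_zero]
      apply Polynomial.funext
      intro x
      rw [Polynomial.eval_map_algebraMap, hno x, Polynomial.eval_zero]
    obtain ⟨u, v, huv, h0⟩ := exists_zero_form m (by omega)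
      (fun k => Polynomial.aeval x (P.coeff k))
    have hv0 : v ≠ 0 := by
      intro hv0
      rw [hv0, Finset.sum_eq_single m] at h0
      · rw [Nat.sub_self, pow_zero, mul_one, mul_eq_zero] at h0
        rcases h0 with h | h
        · exact hx h
        · rcases huv with h1 | h1
          · exact pow_ne_zero m h1 h
          · exact h1 hv0
      · intro k hk hkm
        have hk' := Finset.mem_range.1 hk
        rw [zero_pow (by omega), mul_zero]
      · intro h1
        exact absurd (Finset.mem_range.2 (Nat.lt_succ_self m)) h1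
    refine ⟨x, u / v, ?_⟩
    rw [evalEval_eq, hm]
    apply mul_left_cancel₀ (pow_ne_zero m hv0)
    rw [mul_zero, ← h0, Finset.mul_sum]
    refine Finset.sum_congr rfl fun k hk => ?_
    have hk' := Finset.mem_range.1 hk
    have e1 : v ^ m = v ^ (m - k) * v ^ k := by
      rw [← pow_add]
      congr 1
      omega
    rw [e1, div_pow]
    have := pow_ne_zero k hv0
    field_simp
  have hzero : (0 : Fin (n + 1) → C) ∈ X := by
    obtain ⟨x, y, hxy⟩ := hex
    have h1 := hcone 0 _ (hXab x y hxy)
    rw [zero_smul] at h1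
    exact h1
  have hbad : (r 0 * r 3 - r 1 * r 2) * P.coeff m ≠ 0 := by
    exact mul_ne_zero hdet hpm0
  have hbadC : ((r 0 * r 3 - r 1 * r 2) * P.coeff m).map (algebraMap K C) ≠ 0 := by
    intro h0
    exact hbad (Polynomial.map_injective _ hinj (by rw [h0, Polynomial.map_zero]))
  have hgood : ∀ x : C, x ∉ (((r 0 * r 3 - r 1 * r 2) * P.coeff m).map
      (algebraMap K C)).roots.toFinset → ∀ u v : C,
      ∑ k ∈ Finset.range (m + 1), ((q k).map (algebraMap K C)).eval x * u ^ k * v ^ (m - k) = 0 →
      (fun i => u * ((a' i).map (algebraMap K C)).eval x +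
        v * ((b' i).map (algebraMap K C)).eval x) ∈
          zeroLocus C (J.map (MvPolynomial.map (algebraMap K C))) := by
    intro x hx u v huv
    have hx' : (((r 0 * r 3 - r 1 * r 2) * P.coeff m).map (algebraMap K C)).eval x ≠ 0 := by
      intro h0
      apply hx
      rw [Multiset.mem_toFinset, Polynomial.mem_roots hbadC]
      exact h0
    rw [Polynomial.eval_map_algebraMap, map_mul, map_sub, map_mul, map_mul] at hx'
    have hdx := left_ne_zero_of_mul hx'
    have hpx := right_ne_zero_of_mul hx'
    simp only [Polynomial.eval_map_algebraMap] at huv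
    have h1 := hDq x u v
    rw [huv, mul_zero] at h1
    rw [zeroLocus_map, ← hJ]
    simp only [Polynomial.eval_map_algebraMap]
    have haC : ∀ i, Polynomial.aeval x D₀ * Polynomial.aeval x (a i) =
        Polynomial.aeval x (r 0) * Polynomial.aeval x (a' i) +
          Polynomial.aeval x (r 1) * Polynomial.aeval x (b' i) := by
      intro i
      rw [← map_mul, ha i, map_add, map_mul, map_mul]
    have hbC : ∀ i, Polynomial.aeval x D₀ * Polynomial.aeval x (b i) =
        Polynomial.aeval x (r 2) * Polynomial.aeval x (a' i) +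
          Polynomial.aeval x (r 3) * Polynomial.aeval x (b' i) := by
      intro i
      rw [← map_mul, hb i, map_add, map_mul, map_mul]
    rcases point_of_form (p := fun k => Polynomial.aeval x (P.coeff k)) haC hbC hdx hpx h1.symm with
      ⟨hu, hv⟩ | ⟨κ, y, hy, hl⟩
    · have e1 : (fun i => u * Polynomial.aeval x (a' i) + v * Polynomial.aeval x (b' i)) =
          (0 : Fin (n + 1) → C) := by
        funext i
        rw [hu, hv, zero_mul, zero_mul, add_zero]
        rfl
      rw [e1]
      exact hzero
    · have h2 := hcone κ _ (hXab x y (by rw [evalEval_eq, hm]; exact hy))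
      have e1 : (fun i => u * Polynomial.aeval x (a' i) + v * Polynomial.aeval x (b' i)) =
          κ • fun i => Polynomial.aeval x (a i) + y * Polynomial.aeval x (b i) := by
        funext l
        rw [hl l]
        rfl
      rw [e1]
      exact h2
  have hlim : ∀ s t u v : C, (s ≠ 0 ∨ t ≠ 0) →
      ∑ k ∈ Finset.range (m + 1), hv (c + k * e) ((q k).map (algebraMap K C)) s t * u ^ k *
        v ^ (m - k) = 0 →
      (fun i => u * hv (β + e) ((a' i).map (algebraMap K C)) s t +
        v * hv β ((b' i).map (algebraMap K C)) s t) ∈ zeroLocus C J := by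
    have := H2 C T.absK T.ultraK ⟨(p : C), T.p_ne, T.p_lt⟩ (n + 1)
      (J.map (MvPolynomial.map (algebraMap K C)))
      (fun c y hy => by
        rw [zeroLocus_map, ← hJ] at hy ⊢
        exact hcone c y hy) e β c m (fun i => (a' i).map (algebraMap K C))
      (fun i => (b' i).map (algebraMap K C)) (fun k => (q k).map (algebraMap K C))
      (((r 0 * r 3 - r 1 * r 2) * P.coeff m).map (algebraMap K C)).roots.toFinset da db hcC
      (fun s t hst => hv_neM hcC hq0C hcinfC hst) hgood
    rw [zeroLocus_map] at this
    exact this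
  have hsub : mimage C (eqm e c m q) (fun i => ff e β (a' i) (b' i)) ⊆ X := by
    rintro x (hx | ⟨z, hz, hz0, hx⟩)
    · rw [hx]
      exact hzero
    · obtain ⟨u, hu, hQ⟩ := pt_eqm (q := fun k => (q k).map (algebraMap K C)) (c := c) (m := m) hz
        (fun j => by
          rw [← aeval_eqmG]
          exact hz0 j)
      have h1 := hlim _ _ u _ (pt_zero hz) hQ
      rw [hJ]
      have e1 : x = fun i => u * hv (β + e) ((a' i).map (algebraMap K C)) (z (cs e)) (z (ct e)) +
          z (cv e) * hv β ((b' i).map (algebraMap K C)) (z (cs e)) (z (ct e)) := by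
        funext i
        rw [hx i, aeval_ffG, aeval_ff _ _ hu]
      rw [e1]
      exact h1
  have hbf : BaseFree C (eqm e c m q) (fun i => ff e β (a' i) (b' i)) := by
    intro z hz hz0
    obtain ⟨i, hi⟩ := not_all_zeroM (q := fun k => (q k).map (algebraMap K C)) (c := c) (m := m)
      da db hfinC hinfC' hz (fun j => by
        rw [← aeval_eqmG]
        exact hz0 j)
    refine ⟨i, ?_⟩
    rw [aeval_ffG]
    exact hi
  have hmh : ∀ j, MultiHom (eqm e c m q j) (dgm e c m j) := by
    intro j
    unfold eqm dgm
    split_ifs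
    · exact scr_mh e j
    · exact qm_mh e c m q
  have hpos : Positive (dm e) (dgm e c m) ![β, 1] 1 := by
    have hm0 : 0 < m := by omega
    rcases Nat.eq_zero_or_pos e with he | he
    · rcases Nat.eq_zero_or_pos β with hb0 | hb0
      · rcases Nat.eq_zero_or_pos c with hc0 | hc0
        · exfalso
          subst he
          subst hc0
          have h1 : ∀ k ≤ m, q k = Polynomial.C ((q k).coeff 0) := fun k hk =>
            Polynomial.eq_C_of_natDegree_le_zero (by simpa using hc k hk)
          obtain ⟨u, v, huv, h2⟩ := exists_zero_form m hm0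
            (fun k => algebraMap K C ((q k).coeff 0))
          obtain ⟨x, hx⟩ := hq1 u v huv
          apply hx
          rw [← h2]
          refine Finset.sum_congr rfl fun k hk => ?_
          rw [h1 k (by have := Finset.mem_range.1 hk; omega), Polynomial.aeval_C,
            Polynomial.coeff_C_zero]
        · refine positive_ofM hm0 (Sum.inl (Fin.last e)) (fun j hj => ?_) (fun j hj => ?_)
          · rw [← Sum.inl.inj hj]
            unfold dgm
            rw [if_neg (by simp)]
            exact hc0
          · cases hj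
      · refine positive_ofM hm0 (Sum.inr 0) (fun j hj => ?_) (fun j hj => hb0)
        cases hj
    · refine positive_ofM hm0 (Sum.inl 0) (fun j hj => ?_) (fun j hj => ?_)
      · rw [← Sum.inl.inj hj]
        unfold dgm
        rw [if_pos (by simpa using he)]
        exact one_pos
      · cases hj
  have hdim : DimLEOver K (mimage C (eqm e c m q) (fun i => ff e β (a' i) (b' i))) 1 := by
    obtain ⟨w, hw, hw0⟩ := hd
    exact ⟨w, hw, fun y hy hyq => hw0 y (hsub hy) hyq⟩
  have hD1 : (![β, 1] : Fin 2 → ℕ) ≠ 0 := by
    intro h0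
    have := congrFun h0 1
    simp at this
  exact (main T BF hmh (fun i => ff_mh e β (a' i) (b' i)) hD1 hbf hpos hdim).2.2 X hsub

end Pool.Agent.H20.HE
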