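import Pool.Agent.H20.HE.Stm

/-! Homogenised values; the quadratic form of a curve with a quadratic function field. -/

set_option autoImplicit false

namespace Pool.Agent.H20.HE

open Polynomial

variable {K : Type} [Field K]

theorem hv_eq {N : ℕ} {f : K[X]} (hf : f.natDegree ≤ N) {s : K} (hs : s ≠ 0) (t : K) :
    hv N f s t = s ^ N * f.eval (t / s) := by
  unfold hv
  rw [Polynomial.eval_eq_sum_range' (Nat.lt_succ_of_le hf), Finset.mul_sum]
  refine Finset.sum_congr rfl fun j hj => ?_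
  have hj' : j ≤ N := Nat.lt_succ_iff.1 (Finset.mem_range.1 hj)
  have h1 : s ^ N = s ^ (N - j) * s ^ j := by rw [← pow_add, Nat.sub_add_cancel hj']
  rw [h1, div_pow]
  field_simp

theorem hv_zero (N : ℕ) (f : K[X]) (t : K) : hv N f 0 t = f.coeff N * t ^ N := by
  unfold hv
  rw [Finset.sum_eq_single N]
  · rw [Nat.sub_self, pow_zero, mul_one]
  · intro j hj hne
    have hj' : j ≤ N := Nat.lt_succ_iff.1 (Finset.mem_range.1 hj)
    rw [zero_pow (by omega), mul_zero, zero_mul]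
  · intro h
    exact absurd (Finset.mem_range.2 (Nat.lt_succ_self N)) h

theorem ne_zero_of_det {h : K[X]} (hh : ¬ IsSquare h) {p q : K[X]} (hpq : p ≠ 0 ∨ q ≠ 0) :
    p ^ 2 - h * q ^ 2 ≠ 0 := by
  intro h0
  have h1 : p ^ 2 = h * q ^ 2 := sub_eq_zero.1 h0
  by_cases hq : q = 0
  · rw [hq, zero_pow two_ne_zero, mul_zero] at h1
    have hp : p = 0 := pow_eq_zero_iff two_ne_zero |>.1 h1
    rcases hpq with h | h
    · exact h hp
    · exact h hq
  · have h2 : q ^ 2 ∣ p ^ 2 := ⟨h, by rw [h1]; ring⟩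
    have h3 : q ∣ p := (IsIntegrallyClosed.pow_dvd_pow_iff two_ne_zero).1 h2
    obtain ⟨w, hw⟩ := h3
    apply hh
    refine ⟨w, ?_⟩
    have h4 : q ^ 2 * (w * w) = q ^ 2 * h := by
      rw [hw] at h1
      linear_combination h1
    exact (mul_left_cancel₀ (pow_ne_zero 2 hq) h4).symm

/-- The primitive quadratic form. -/
theorem exists_quad {h : K[X]} (hh : ¬ IsSquare h) (r : Fin 4 → K[X])
    (hdet : r 0 * r 3 - r 1 * r 2 ≠ 0) :
    ∃ D A B G : K[X], D ≠ 0 ∧ D * A = r 1 ^ 2 - h * r 3 ^ 2 ∧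
      D * B = 2 * h * (r 2 * r 3) - 2 * (r 0 * r 1) ∧ D * G = r 0 ^ 2 - h * r 2 ^ 2 ∧ G ≠ 0 ∧
      ∀ x, ¬ (A.eval x = 0 ∧ B.eval x = 0 ∧ G.eval x = 0) := by
  classical
  set A₀ := r 1 ^ 2 - h * r 3 ^ 2 with hA₀
  set B₀ := 2 * h * (r 2 * r 3) - 2 * (r 0 * r 1) with hB₀
  set G₀ := r 0 ^ 2 - h * r 2 ^ 2 with hG₀
  have hG0 : G₀ ≠ 0 := by
    refine ne_zero_of_det hh ?_
    by_contra hno
    push Not at hno
    apply hdet
    rw [hno.1, hno.2]
    ring
  set D := EuclideanDomain.gcd (EuclideanDomain.gcd A₀ B₀) G₀ with hD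
  have hDG : D ∣ G₀ := EuclideanDomain.gcd_dvd_right _ _
  have hDA : D ∣ A₀ := (EuclideanDomain.gcd_dvd_left _ _).trans (EuclideanDomain.gcd_dvd_left _ _)
  have hDB : D ∣ B₀ := (EuclideanDomain.gcd_dvd_left _ _).trans (EuclideanDomain.gcd_dvd_right _ _)
  have hD0 : D ≠ 0 := by
    intro h0
    rw [h0, zero_dvd_iff] at hDG
    exact hG0 hDG
  obtain ⟨A, hA⟩ := hDA
  obtain ⟨B, hB⟩ := hDB
  obtain ⟨G, hG⟩ := hDG
  refine ⟨D, A, B, G, hD0, hA.symm, hB.symm, hG.symm, ?_, ?_⟩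
  · rintro rfl
    rw [mul_zero] at hG
    exact hG0 hG
  · rintro x ⟨h1, h2, h3⟩
    have k : ∀ {f g : K[X]}, f = D * g → g.eval x = 0 → D * (X - C x) ∣ f := by
      intro f g hf hg
      rw [hf]
      exact mul_dvd_mul_left D (dvd_iff_isRoot.2 hg)
    have h4 : D * (X - C x) ∣ D :=
      EuclideanDomain.dvd_gcd (EuclideanDomain.dvd_gcd (k hA h1) (k hB h2)) (k hG h3)
    obtain ⟨w, hw⟩ := h4
    have h5 : (X - C x) * w = 1 := by
      have h6 : D * ((X - C x) * w) = D * 1 := by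
        rw [mul_one, ← mul_assoc]
        exact hw.symm
      exact mul_left_cancel₀ hD0 h6
    have h7 : IsUnit (X - C x : K[X]) := IsUnit.of_mul_eq_one w h5
    exact not_isUnit_X_sub_C x h7

/-- The discriminant. -/
theorem disc_eq {h D A B G : K[X]} {r : Fin 4 → K[X]} (hA : D * A = r 1 ^ 2 - h * r 3 ^ 2)
    (hB : D * B = 2 * h * (r 2 * r 3) - 2 * (r 0 * r 1)) (hG : D * G = r 0 ^ 2 - h * r 2 ^ 2) :
    D ^ 2 * (B ^ 2 - 4 * (A * G)) = h * (2 * (r 0 * r 3 - r 1 * r 2)) ^ 2 := by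
  calc D ^ 2 * (B ^ 2 - 4 * (A * G)) = (D * B) ^ 2 - 4 * ((D * A) * (D * G)) := by ring
    _ = _ := by rw [hA, hB, hG]; ring

/-- The points of the curve over a general parameter. -/
theorem point_of_quad {n : ℕ} {a b a' b' : Fin n → K[X]} {r : Fin 4 → K[X]}
    (ha : ∀ i, a i = r 0 * a' i + r 1 * b' i) (hb : ∀ i, b i = r 2 * a' i + r 3 * b' i)
    {h D A B G : K[X]} (hA : D * A = r 1 ^ 2 - h * r 3 ^ 2)
    (hB : D * B = 2 * h * (r 2 * r 3) - 2 * (r 0 * r 1)) (hG : D * G = r 0 ^ 2 - h * r 2 ^ 2)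
    {i j : Fin n} {x : K} (hx : (a i * b j - a j * b i).eval x ≠ 0) {y₀ : K}
    (hy₀ : y₀ ^ 2 = h.eval x) {u v : K}
    (huv : A.eval x * u ^ 2 + B.eval x * u * v + G.eval x * v ^ 2 = 0) :
    ∃ κ y : K, y ^ 2 = h.eval x ∧
      ∀ l, u * (a' l).eval x + v * (b' l).eval x = κ * ((a l).eval x + y * (b l).eval x) := by
  have hA' := congrArg (Polynomial.eval x) hA
  have hB' := congrArg (Polynomial.eval x) hB
  have hG' := congrArg (Polynomial.eval x) hG
  simp only [eval_mul, eval_sub, eval_pow, eval_ofNat] at hA' hB' hG'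
  have h1 : (u * (r 1).eval x - v * (r 0).eval x) ^ 2 =
      h.eval x * (u * (r 3).eval x - v * (r 2).eval x) ^ 2 := by
    linear_combination (D.eval x) * huv - u ^ 2 * hA' - u * v * hB' - v ^ 2 * hG'
  rw [← hy₀, ← mul_pow] at h1
  have hex : ∃ y : K, y ^ 2 = h.eval x ∧
      u * ((r 1).eval x + y * (r 3).eval x) = v * ((r 0).eval x + y * (r 2).eval x) := by
    rcases sq_eq_sq_iff_eq_or_eq_neg.1 h1 with h2 | h2
    · refine ⟨-y₀, by rw [neg_sq, hy₀], ?_⟩
      linear_combination h2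
    · refine ⟨y₀, hy₀, ?_⟩
      linear_combination h2
  obtain ⟨y, hy, hyuv⟩ := hex
  set P := (r 0).eval x + y * (r 2).eval x with hP
  set Q := (r 1).eval x + y * (r 3).eval x with hQ
  have hl : ∀ l, (a l).eval x + y * (b l).eval x = P * (a' l).eval x + Q * (b' l).eval x := by
    intro l
    rw [ha l, hb l]
    simp only [eval_mul, eval_add]
    rw [hP, hQ]
    ring
  have hPQ : P ≠ 0 ∨ Q ≠ 0 := by
    by_contra hno
    push Not at hno
    apply hx
    have e : ∀ l, (a l).eval x = -(y * (b l).eval x) := by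
      intro l
      have := hl l
      rw [hno.1, hno.2, zero_mul, zero_mul, add_zero] at this
      linear_combination this
    rw [eval_sub, eval_mul, eval_mul, e i, e j]
    ring
  rcases hPQ with h0 | h0
  · refine ⟨u / P, y, hy, fun l => ?_⟩
    rw [hl l]
    have e : v = u * Q / P := by
      rw [eq_div_iff h0]
      exact hyuv.symm
    rw [e]
    field_simp
  · refine ⟨v / Q, y, hy, fun l => ?_⟩
    rw [hl l]
    have e : u = v * P / Q := by
      rw [eq_div_iff h0]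
      exact hyuv
    rw [e]
    field_simp

end Pool.Agent.H20.HE
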