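import Pool.Agent.H20.HE.Quad
import Pool.Graph.R_seed8.X271.TmFin

/-! The double cover of a rational normal scroll, in a product of two projective spaces. -/

set_option autoImplicit false

namespace Pool.Agent.H20.HE

open MvPolynomial Pool.Agent.X271.TN

/-- the dimensions of the two projective spaces -/
def dm (e : ℕ) : Fin 2 → ℕ := ![1, e + 1]

/-- the coordinate `s` -/
def cs (e : ℕ) : Crd (dm e) := ⟨0, 0⟩
/-- the coordinate `t` -/
def ct (e : ℕ) : Crd (dm e) := ⟨0, Fin.last _⟩
/-- the coordinate `v` -/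
def cv (e : ℕ) : Crd (dm e) := ⟨1, 0⟩
/-- the coordinate `u_k` -/
def cu (e k : ℕ) : Crd (dm e) := ⟨1, Fin.ofNat _ (k + 1)⟩

variable {K : Type} [Field K]

theorem pt_zero {e : ℕ} {z : Crd (dm e) → K} (h : IsPt z) : z (cs e) ≠ 0 ∨ z (ct e) ≠ 0 := by
  obtain ⟨i, hi⟩ := h 0
  have h2 : (i : ℕ) < 2 := i.2
  rcases Nat.lt_succ_iff_lt_or_eq.1 h2 with h3 | h3
  · left
    have h4 : i = 0 := Fin.ext (by
      have : (i : ℕ) = 0 := by omega
      rw [this]
      rfl)
    rw [h4] at hi
    exact hi
  · right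
    have h4 : i = Fin.last _ := Fin.ext (by
      rw [h3]
      rfl)
    rw [h4] at hi
    exact hi

theorem pt_one {e : ℕ} {z : Crd (dm e) → K} (h : IsPt z) : z (cv e) ≠ 0 ∨ ∃ k ≤ e, z (cu e k) ≠ 0 := by
  obtain ⟨i, hi⟩ := h 1
  have h2 : (i : ℕ) < e + 2 := i.2
  rcases Nat.eq_zero_or_pos (i : ℕ) with h3 | h3
  · left
    have h4 : i = 0 := Fin.ext (by
      rw [h3]
      rfl)
    rw [h4] at hi
    exact hi
  · right
    refine ⟨(i : ℕ) - 1, by omega, ?_⟩
    have h4 : i = Fin.ofNat _ ((i : ℕ) - 1 + 1) := Fin.ext (by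
      change (i : ℕ) = ((i : ℕ) - 1 + 1) % (e + 1 + 1)
      rw [Nat.mod_eq_of_lt (by omega)]
      omega)
    rw [h4] at hi
    exact hi

/-- the scroll equations -/
noncomputable def scr (K : Type) [Field K] (e k : ℕ) : MvPolynomial (Crd (dm e)) K :=
  X (ct e) * X (cu e k) - X (cs e) * X (cu e (k + 1))

/-- the quadratic equation -/
noncomputable def qq (e c : ℕ) (A B G : Polynomial K) : MvPolynomial (Crd (dm e)) K :=
  (∑ j ∈ Finset.range (c + 2 * e + 1), C (A.coeff j) *
    (X (cs e) ^ (c - (j - min j e - min (j - min j e) e)) *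
      X (ct e) ^ (j - min j e - min (j - min j e) e) *
      (X (cu e (min j e)) * X (cu e (min (j - min j e) e))))) +
  (∑ j ∈ Finset.range (c + e + 1), C (B.coeff j) *
    (X (cs e) ^ (c - (j - min j e)) * X (ct e) ^ (j - min j e) *
      (X (cu e (min j e)) * X (cv e)))) +
  ∑ j ∈ Finset.range (c + 1), C (G.coeff j) *
    (X (cs e) ^ (c - j) * X (ct e) ^ j * (X (cv e) * X (cv e)))

/-- the maps -/
noncomputable def ff (e β : ℕ) (a b : Polynomial K) : MvPolynomial (Crd (dm e)) K :=
  (∑ j ∈ Finset.range (β + e + 1), C (a.coeff j) *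
    (X (cs e) ^ (β - (j - min j e)) * X (ct e) ^ (j - min j e) * X (cu e (min j e)))) +
  ∑ j ∈ Finset.range (β + 1), C (b.coeff j) *
    (X (cs e) ^ (β - j) * X (ct e) ^ j * X (cv e))

theorem multi_of_wh {r : ℕ} {m : Fin r → ℕ} {P : MvPolynomial (Crd m) K} {d : Fin r → ℕ}
    (h : IsWeightedHomogeneous (Pool.Agent.W476.TP.wt m) P d) : MultiHom P d := by
  intro α hα κ
  have h1 := h (mem_support_iff.1 hα)
  rw [Finsupp.weight_apply, Finsupp.sum_fintype _ _ (fun i => by exact zero_smul ℕ _)] at h1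
  rw [← h1, Finset.sum_apply, Fintype.sum_sigma, Finset.sum_eq_single κ]
  · refine Finset.sum_congr rfl fun i _ => ?_
    simp [Pool.Agent.W476.TP.wt]
  · intro b _ hb
    refine Finset.sum_eq_zero fun i _ => ?_
    simp [Pool.Agent.W476.TP.wt, Pi.single_eq_of_ne (Ne.symm hb)]
  · intro h
    exact absurd (Finset.mem_univ _) h

theorem wh_sum {r : ℕ} {m : Fin r → ℕ} {ι : Type} {S : Finset ι} {d : Fin r → ℕ}
    {φ : ι → MvPolynomial (Crd m) K}
    (h : ∀ i ∈ S, IsWeightedHomogeneous (Pool.Agent.W476.TP.wt m) (φ i) d) :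
    IsWeightedHomogeneous (Pool.Agent.W476.TP.wt m) (∑ i ∈ S, φ i) d := by
  have := Submodule.sum_mem (weightedHomogeneousSubmodule K (Pool.Agent.W476.TP.wt m) d) h
  exact this

theorem wh_s (e n : ℕ) : IsWeightedHomogeneous (Pool.Agent.W476.TP.wt (dm e))
    (X (cs e) ^ n : MvPolynomial (Crd (dm e)) K) ![n, 0] := by
  have h := (isWeightedHomogeneous_X K (Pool.Agent.W476.TP.wt (dm e)) (cs e)).pow n
  have e1 : n • Pool.Agent.W476.TP.wt (dm e) (cs e) = ![n, 0] := by
    funext κ
    fin_cases κ <;> simp [Pool.Agent.W476.TP.wt, cs]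
  rw [e1] at h
  exact h

theorem wh_t (e n : ℕ) : IsWeightedHomogeneous (Pool.Agent.W476.TP.wt (dm e))
    (X (ct e) ^ n : MvPolynomial (Crd (dm e)) K) ![n, 0] := by
  have h := (isWeightedHomogeneous_X K (Pool.Agent.W476.TP.wt (dm e)) (ct e)).pow n
  have e1 : n • Pool.Agent.W476.TP.wt (dm e) (ct e) = ![n, 0] := by
    funext κ
    fin_cases κ <;> simp [Pool.Agent.W476.TP.wt, ct]
  rw [e1] at h
  exact h

theorem wh_v (e : ℕ) : IsWeightedHomogeneous (Pool.Agent.W476.TP.wt (dm e))
    (X (cv e) : MvPolynomial (Crd (dm e)) K) ![0, 1] := by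
  have h := isWeightedHomogeneous_X K (Pool.Agent.W476.TP.wt (dm e)) (cv e)
  have e1 : Pool.Agent.W476.TP.wt (dm e) (cv e) = ![0, 1] := by
    funext κ
    fin_cases κ <;> simp [Pool.Agent.W476.TP.wt, cv]
  rw [e1] at h
  exact h

theorem wh_u (e k : ℕ) : IsWeightedHomogeneous (Pool.Agent.W476.TP.wt (dm e))
    (X (cu e k) : MvPolynomial (Crd (dm e)) K) ![0, 1] := by
  have h := isWeightedHomogeneous_X K (Pool.Agent.W476.TP.wt (dm e)) (cu e k)
  have e1 : Pool.Agent.W476.TP.wt (dm e) (cu e k) = ![0, 1] := by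
    funext κ
    fin_cases κ <;> simp [Pool.Agent.W476.TP.wt, cu]
  rw [e1] at h
  exact h

theorem wh_c (e : ℕ) (x : K) : IsWeightedHomogeneous (Pool.Agent.W476.TP.wt (dm e))
    (C x : MvPolynomial (Crd (dm e)) K) 0 := isWeightedHomogeneous_C _ _

theorem wh_cast {e : ℕ} {P : MvPolynomial (Crd (dm e)) K} {d d' : Fin 2 → ℕ}
    (h : IsWeightedHomogeneous (Pool.Agent.W476.TP.wt (dm e)) P d) (h0 : d 0 = d' 0)
    (h1 : d 1 = d' 1) : IsWeightedHomogeneous (Pool.Agent.W476.TP.wt (dm e)) P d' := by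
  have : d = d' := by
    funext κ
    fin_cases κ
    · exact h0
    · exact h1
  rwa [this] at h

theorem scr_mh (e k : ℕ) : MultiHom (scr K e k) ![1, 1] := by
  refine multi_of_wh ?_
  unfold scr
  have h1 := wh_cast (d' := ![1, 1]) ((wh_t (K := K) e 1).mul (wh_u e k)) rfl rfl
  have h2 := wh_cast (d' := ![1, 1]) ((wh_s (K := K) e 1).mul (wh_u e (k + 1))) rfl rfl
  rw [pow_one] at h1 h2
  exact Submodule.sub_mem (weightedHomogeneousSubmodule K (Pool.Agent.W476.TP.wt (dm e)) ![1, 1]) h1 h2

theorem qq_mh (e c : ℕ) (A B G : Polynomial K) : MultiHom (qq e c A B G) ![c, 2] := by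
  refine multi_of_wh ?_
  unfold qq
  refine IsWeightedHomogeneous.add (IsWeightedHomogeneous.add ?_ ?_) ?_
  · refine wh_sum fun j hj => ?_
    have hj' := Finset.mem_range.1 hj
    refine wh_cast ((wh_c e _).mul (((wh_s e _).mul (wh_t e _)).mul ((wh_u e _).mul (wh_u e _)))) ?_ ?_
    · simp
      omega
    · simp
  · refine wh_sum fun j hj => ?_
    have hj' := Finset.mem_range.1 hj
    refine wh_cast ((wh_c e _).mul (((wh_s e _).mul (wh_t e _)).mul ((wh_u e _).mul (wh_v e)))) ?_ ?_
    · simp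
      omega
    · simp
  · refine wh_sum fun j hj => ?_
    have hj' := Finset.mem_range.1 hj
    refine wh_cast ((wh_c e _).mul (((wh_s e _).mul (wh_t e _)).mul ((wh_v e).mul (wh_v e)))) ?_ ?_
    · simp
      omega
    · simp

theorem ff_mh (e β : ℕ) (a b : Polynomial K) : MultiHom (ff e β a b) ![β, 1] := by
  refine multi_of_wh ?_
  unfold ff
  refine IsWeightedHomogeneous.add ?_ ?_
  · refine wh_sum fun j hj => ?_
    have hj' := Finset.mem_range.1 hj
    refine wh_cast ((wh_c e _).mul (((wh_s e _).mul (wh_t e _)).mul (wh_u e _))) ?_ ?_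
    · simp
      omega
    · simp
  · refine wh_sum fun j hj => ?_
    have hj' := Finset.mem_range.1 hj
    refine wh_cast ((wh_c e _).mul (((wh_s e _).mul (wh_t e _)).mul (wh_v e))) ?_ ?_
    · simp
      omega
    · simp

/-- The points of the scroll. -/
theorem scroll {e : ℕ} {z : Crd (dm e) → K} (h0 : z (cs e) ≠ 0 ∨ z (ct e) ≠ 0)
    (hz : ∀ k < e, aeval z (scr K e k) = 0) :
    ∃ u : K, ∀ k ≤ e, z (cu e k) = u * (z (cs e) ^ (e - k) * z (ct e) ^ k) := by
  have hz' : ∀ k < e, z (ct e) * z (cu e k) = z (cs e) * z (cu e (k + 1)) := by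
    intro k hk
    have := hz k hk
    unfold scr at this
    rw [map_sub, map_mul, map_mul, aeval_X, aeval_X, aeval_X, aeval_X, sub_eq_zero] at this
    exact this
  by_cases hs : z (cs e) = 0
  · have ht : z (ct e) ≠ 0 := by
      rcases h0 with h | h
      · exact absurd hs h
      · exact h
    refine ⟨z (cu e e) / z (ct e) ^ e, fun k hk => ?_⟩
    rcases Nat.lt_or_ge k e with h | h
    · have := hz' k h
      rw [hs, zero_mul, mul_eq_zero] at this
      rcases this with h3 | h3
      · exact absurd h3 ht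
      · rw [h3, hs, zero_pow (by omega)]
        ring
    · have : k = e := le_antisymm hk h
      subst this
      rw [Nat.sub_self, pow_zero, one_mul, div_mul_cancel₀]
      exact pow_ne_zero _ ht
  · refine ⟨z (cu e 0) / z (cs e) ^ e, fun k => ?_⟩
    induction k with
    | zero =>
      intro _
      rw [pow_zero, mul_one, Nat.sub_zero, div_mul_cancel₀]
      exact pow_ne_zero _ hs
    | succ k ih =>
      intro hk
      have h1 := ih (by omega)
      have h2 := hz' k (by omega)
      rw [h1] at h2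
      have h3 : z (cs e) ^ (e - k) = z (cs e) ^ (e - (k + 1)) * z (cs e) := by
        rw [← pow_succ]
        congr 1
        omega
      rw [h3] at h2
      apply mul_left_cancel₀ hs
      rw [← h2, pow_succ]
      ring

/-- The values of the maps. -/
theorem aeval_ff {e β : ℕ} (a b : Polynomial K) {z : Crd (dm e) → K} {u : K}
    (hz : ∀ k ≤ e, z (cu e k) = u * (z (cs e) ^ (e - k) * z (ct e) ^ k)) :
    aeval z (ff e β a b) = u * hv (β + e) a (z (cs e)) (z (ct e)) +
      z (cv e) * hv β b (z (cs e)) (z (ct e)) := by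
  unfold ff hv
  rw [map_add, map_sum, map_sum, Finset.mul_sum, Finset.mul_sum]
  congr 1
  · refine Finset.sum_congr rfl fun j hj => ?_
    have hj' := Finset.mem_range.1 hj
    simp only [map_mul, map_pow, aeval_X, aeval_C, Algebra.algebraMap_self, RingHom.id_apply]
    rw [hz (min j e) (min_le_right _ _)]
    have e1 : β + e - j = (β - (j - min j e)) + (e - min j e) := by omega
    have e2 : j = (j - min j e) + min j e := by omega
    rw [e1, pow_add]
    conv_rhs => rw [e2, pow_add]
    rw [← e2]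
    ring
  · refine Finset.sum_congr rfl fun j hj => ?_
    simp only [map_mul, map_pow, aeval_X, aeval_C, Algebra.algebraMap_self, RingHom.id_apply]
    ring

/-- The values of the quadratic equation. -/
theorem aeval_qq {e c : ℕ} (A B G : Polynomial K) {z : Crd (dm e) → K} {u : K}
    (hz : ∀ k ≤ e, z (cu e k) = u * (z (cs e) ^ (e - k) * z (ct e) ^ k)) :
    aeval z (qq e c A B G) = hv (c + 2 * e) A (z (cs e)) (z (ct e)) * u ^ 2 +
      hv (c + e) B (z (cs e)) (z (ct e)) * u * z (cv e) +
      hv c G (z (cs e)) (z (ct e)) * z (cv e) ^ 2 := by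
  unfold qq hv
  rw [map_add, map_add, map_sum, map_sum, map_sum, Finset.sum_mul, Finset.sum_mul, Finset.sum_mul,
    Finset.sum_mul]
  congr 1
  · congr 1
    · refine Finset.sum_congr rfl fun j hj => ?_
      have hj' := Finset.mem_range.1 hj
      simp only [map_mul, map_pow, aeval_X, aeval_C, Algebra.algebraMap_self, RingHom.id_apply]
      rw [hz (min j e) (min_le_right _ _), hz (min (j - min j e) e) (min_le_right _ _)]
      generalize hk : min j e = k
      generalize hl : min (j - k) e = l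
      generalize hm : j - k - l = m
      have e1 : c + 2 * e - j = (c - m) + (e - k) + (e - l) := by omega
      have e2 : j = m + k + l := by omega
      have e3 : z (ct e) ^ j = z (ct e) ^ m * z (ct e) ^ k * z (ct e) ^ l := by
        rw [← pow_add, ← pow_add, ← e2]
      rw [e1, pow_add, pow_add, e3]
      ring
    · refine Finset.sum_congr rfl fun j hj => ?_
      have hj' := Finset.mem_range.1 hj
      simp only [map_mul, map_pow, aeval_X, aeval_C, Algebra.algebraMap_self, RingHom.id_apply]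
      rw [hz (min j e) (min_le_right _ _)]
      generalize hk : min j e = k
      generalize hm : j - k = m
      have e1 : c + e - j = (c - m) + (e - k) := by omega
      have e2 : j = m + k := by omega
      have e3 : z (ct e) ^ j = z (ct e) ^ m * z (ct e) ^ k := by
        rw [← pow_add, ← e2]
      rw [e1, pow_add, e3]
      ring
  · refine Finset.sum_congr rfl fun j hj => ?_
    simp only [map_mul, map_pow, aeval_X, aeval_C, Algebra.algebraMap_self, RingHom.id_apply]
    ring

end Pool.Agent.H20.HE
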