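import Mathlib

/-! Statements of the separate pieces for the curves with a quadratic function field. -/

set_option autoImplicit false

namespace Pool.Agent.H20.HE

open Polynomial

/-- the value at `(s, t)` of the homogenisation in degree `N` of `f` (`x = t / s`) -/
noncomputable def hv {K : Type} [Field K] (N : ℕ) (f : K[X]) (s t : K) : K :=
  ∑ j ∈ Finset.range (N + 1), f.coeff j * s ^ (N - j) * t ^ j

/-- Piece A: a basis which is independent at every point, also at infinity. -/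
def S_basis : Prop := ∀ (K : Type) [Field K] (n : ℕ) (a b : Fin n → K[X]),
  (∃ i j, a i * b j ≠ a j * b i) →
    ∃ (α β : ℕ) (a' b' : Fin n → K[X]) (r : Fin 4 → K[X]), β ≤ α ∧
      (∀ i, (a' i).natDegree ≤ α) ∧ (∀ i, (b' i).natDegree ≤ β) ∧
      (∀ i, a i = r 0 * a' i + r 1 * b' i) ∧ (∀ i, b i = r 2 * a' i + r 3 * b' i) ∧
      (∀ x l m : K, (∀ i, l * (a' i).eval x + m * (b' i).eval x = 0) → l = 0 ∧ m = 0) ∧
      ∀ l m : K, (∀ i, l * (a' i).coeff α + m * (b' i).coeff β = 0) → l = 0 ∧ m = 0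

/-- Piece D: the points over the exceptional parameters are limits. -/
def S_limit : Prop := ∀ (K : Type) [Field K] [IsAlgClosed K] (w : AbsoluteValue K ℝ),
  (∀ x y, w (x + y) ≤ max (w x) (w y)) → (∃ x : K, x ≠ 0 ∧ w x < 1) →
  ∀ (n : ℕ) (J : Ideal (MvPolynomial (Fin n) K)),
    (∀ (c : K) (y : Fin n → K), y ∈ MvPolynomial.zeroLocus K J → c • y ∈ MvPolynomial.zeroLocus K J) →
  ∀ (α β c : ℕ) (a b : Fin n → K[X]) (A B G : K[X]) (bad : Finset K), β ≤ α →
    (∀ i, (a i).natDegree ≤ α) → (∀ i, (b i).natDegree ≤ β) →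
    A.natDegree ≤ c + 2 * (α - β) → B.natDegree ≤ c + (α - β) → G.natDegree ≤ c →
    (∀ s t : K, (s ≠ 0 ∨ t ≠ 0) →
      ¬ (hv (c + 2 * (α - β)) A s t = 0 ∧ hv (c + (α - β)) B s t = 0 ∧ hv c G s t = 0)) →
    (∀ x, x ∉ bad → ∀ u v : K, A.eval x * u ^ 2 + B.eval x * u * v + G.eval x * v ^ 2 = 0 →
      (fun i => u * (a i).eval x + v * (b i).eval x) ∈ MvPolynomial.zeroLocus K J) →
    ∀ s t u v : K, (s ≠ 0 ∨ t ≠ 0) →
      hv (c + 2 * (α - β)) A s t * u ^ 2 + hv (c + (α - β)) B s t * u * v + hv c G s t * v ^ 2 = 0 →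
      (fun i => u * hv α (a i) s t + v * hv β (b i) s t) ∈ MvPolynomial.zeroLocus K J

end Pool.Agent.H20.HE
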