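import Mathlib

/-! Statement of the basis piece over a subfield. -/

set_option autoImplicit false

namespace Pool.Agent.H20.HE

open Polynomial

/-- Piece A over a field `K` which is not algebraically closed: a basis which is independent at every
point over an extension field `C`, also at infinity. -/
def S_basisG : Prop := ∀ (K C : Type) [Field K] [Field C] [Algebra K C] (n : ℕ) (a b : Fin n → K[X]),
  (∃ i j, a i * b j ≠ a j * b i) →
    ∃ (α β : ℕ) (D : K[X]) (a' b' : Fin n → K[X]) (r : Fin 4 → K[X]), β ≤ α ∧ D ≠ 0 ∧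
      (∀ i, (a' i).natDegree ≤ α) ∧ (∀ i, (b' i).natDegree ≤ β) ∧
      (∀ i, D * a i = r 0 * a' i + r 1 * b' i) ∧ (∀ i, D * b i = r 2 * a' i + r 3 * b' i) ∧
      (∀ x l m : C, (∀ i, l * aeval x (a' i) + m * aeval x (b' i) = 0) → l = 0 ∧ m = 0) ∧
      ∀ l m : C, (∀ i, l * algebraMap K C ((a' i).coeff α) + m * algebraMap K C ((b' i).coeff β) = 0) →
        l = 0 ∧ m = 0

end Pool.Agent.H20.HE
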