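import Pool.Agent.H20.HE.Stm

/-! Statements of the pieces for curves on rational scrolls (forms of degree `m` instead of `2`). -/

set_option autoImplicit false

namespace Pool.Agent.H20.HE

open Polynomial

/-- Limits, for a form of degree `m`; `q k` is the coefficient of `u ^ k v ^ (m - k)`. -/
def S_limitM : Prop := ∀ (K : Type) [Field K] [IsAlgClosed K] (w : AbsoluteValue K ℝ),
  (∀ x y, w (x + y) ≤ max (w x) (w y)) → (∃ x : K, x ≠ 0 ∧ w x < 1) →
  ∀ (n : ℕ) (J : Ideal (MvPolynomial (Fin n) K)),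
    (∀ (c : K) (y : Fin n → K), y ∈ MvPolynomial.zeroLocus K J → c • y ∈ MvPolynomial.zeroLocus K J) →
  ∀ (e β c m : ℕ) (a b : Fin n → K[X]) (q : ℕ → K[X]) (bad : Finset K),
    (∀ i, (a i).natDegree ≤ β + e) → (∀ i, (b i).natDegree ≤ β) →
    (∀ k ≤ m, (q k).natDegree ≤ c + k * e) →
    (∀ s t : K, (s ≠ 0 ∨ t ≠ 0) → ∃ k ≤ m, hv (c + k * e) (q k) s t ≠ 0) →
    (∀ x, x ∉ bad → ∀ u v : K, ∑ k ∈ Finset.range (m + 1), (q k).eval x * u ^ k * v ^ (m - k) = 0 →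
      (fun i => u * (a i).eval x + v * (b i).eval x) ∈ MvPolynomial.zeroLocus K J) →
    ∀ s t u v : K, (s ≠ 0 ∨ t ≠ 0) →
      ∑ k ∈ Finset.range (m + 1), hv (c + k * e) (q k) s t * u ^ k * v ^ (m - k) = 0 →
      (fun i => u * hv (β + e) (a i) s t + v * hv β (b i) s t) ∈ MvPolynomial.zeroLocus K J

/-- The form in the new basis, divided by its content. `P` is a polynomial in `y` over `K[x]`. -/
def S_form : Prop := ∀ (K C : Type) [Field K] [Field C] [Algebra K C] [IsAlgClosed C]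
  (P : Polynomial K[X]) (m : ℕ), P.natDegree = m → 2 ≤ m →
    Irreducible (P.map (Polynomial.mapRingHom (algebraMap K C))) →
  ∀ (r : Fin 4 → K[X]), r 0 * r 3 - r 1 * r 2 ≠ 0 →
    ∃ (D : K[X]) (q : ℕ → K[X]), D ≠ 0 ∧
      (∀ x u v : C, aeval x D * ∑ k ∈ Finset.range (m + 1), aeval x (q k) * u ^ k * v ^ (m - k) =
        ∑ k ∈ Finset.range (m + 1), aeval x (P.coeff k) *
          (aeval x (r 3) * u - aeval x (r 2) * v) ^ (m - k) *
          (aeval x (r 0) * v - aeval x (r 1) * u) ^ k) ∧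
      (∀ x : C, ∃ k ≤ m, aeval x (q k) ≠ 0) ∧
      ∀ u v : C, (u ≠ 0 ∨ v ≠ 0) →
        ∃ x : C, ∑ k ∈ Finset.range (m + 1), aeval x (q k) * u ^ k * v ^ (m - k) ≠ 0

end Pool.Agent.H20.HE
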